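import Mathlib

/-!
# Separator exponent versus expansion exponent: definitions
-/

set_option autoImplicit false

open Asymptotics Filter

namespace Pool.Agent.E8helper34.Sep

/-- A class of graphs (only its finite members matter). -/
def GraphClass : Type 1 := (V : Type) → SimpleGraph V → Prop

/-- The class is closed under taking subgraphs (up to isomorphism): if a finite graph `H` is
isomorphic to a subgraph of a finite member `G`, then `H` is a member. -/
def GraphClass.Monotone (C : GraphClass) : Prop :=
  ∀ (V W : Type) [Finite V] [Finite W] (G : SimpleGraph V) (H : SimpleGraph W),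
    H.IsContained G → C V G → C W H

/-- `S` is a balanced separator of `G`: every component of `G - S` has at most `2 n / 3`
vertices. -/
def IsBalancedSeparator {V : Type} (G : SimpleGraph V) (S : Set V) : Prop :=
  ∀ c : (G.induce Sᶜ).ConnectedComponent, 3 * c.supp.ncard ≤ 2 * Nat.card V

/-- Every `n`-vertex graph of the class has a balanced separator of order `O(n ^ (1 - δ))`. -/
def GraphClass.HasSeparators (C : GraphClass) (δ : ℝ) : Prop :=
  ∃ K : ℝ, ∀ (V : Type) [Finite V] (G : SimpleGraph V), C V G →
    ∃ S : Set V, IsBalancedSeparator G S ∧ (S.ncard : ℝ) ≤ K * (Nat.card V : ℝ) ^ (1 - δ)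

/-- `H` is a depth-`r` minor of `G`: there are vertex-disjoint connected subgraphs `S u` of `G` of
radius at most `r` such that for every edge `uv` of `H` some edge of `G` joins `S u` and `S v`. -/
def IsDepthMinor (r : ℕ) {V W : Type} (H : SimpleGraph W) (G : SimpleGraph V) : Prop :=
  ∃ S : W → G.Subgraph,
    (∀ u, (S u).coe.Connected ∧ (S u).coe.radius ≤ r) ∧
    (∀ u v, u ≠ v → Disjoint (S u).verts (S v).verts) ∧
    ∀ u v, H.Adj u v → ∃ x ∈ (S u).verts, ∃ y ∈ (S v).verts, G.Adj x y

/-- The average degree of a finite graph. -/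
noncomputable def avgDegree {W : Type} (H : SimpleGraph W) : ℝ :=
  2 * (H.edgeSet.ncard : ℝ) / (Nat.card W : ℝ)

/-- The class has expansion bounded by `f`: every depth-`r` minor of every graph of the class has
average degree at most `f r`, for all `r`. -/
def GraphClass.ExpansionBoundedBy (C : GraphClass) (f : ℕ → ℝ) : Prop :=
  ∀ (r : ℕ) (V W : Type) [Finite V] [Finite W] [Nonempty W] (G : SimpleGraph V)
    (H : SimpleGraph W), C V G → IsDepthMinor r H G → avgDegree H ≤ f r

/-- The set `A` of the problem: the reals `c > 0` such that for every `δ ∈ (0, 1]` every monotone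
class whose `n`-vertex graphs have balanced separators of order `O(n ^ (1 - δ))` has expansion
bounded by some function `r ↦ O(r ^ (c / δ))`. -/
def A : Set ℝ :=
  {c | 0 < c ∧ ∀ δ : ℝ, 0 < δ → δ ≤ 1 → ∀ C : GraphClass, C.Monotone → C.HasSeparators δ →
    ∃ f : ℕ → ℝ, C.ExpansionBoundedBy f ∧ f =O[atTop] fun r : ℕ => (r : ℝ) ^ (c / δ)}

end Pool.Agent.E8helper34.Sep
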