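import Pool.Agent.E8helper34.Sep.Lower

/-!
# The lower bound: the class of subgraphs of subdivided complete graphs
-/

set_option autoImplicit false

open Asymptotics Filter

namespace Pool.Agent.E8helper34.Sep

/-- the star of a branch vertex -/
def star (m r : ℕ) (i : Fin m) : (SG m r).Subgraph := (⊤ : (SG m r).Subgraph).induce {x | st x = i}

lemma mem_star {m r : ℕ} {i : Fin m} {x : SV m r} : x ∈ (star m r i).verts ↔ st x = i := Iff.rfl

lemma sg_adj {m r : ℕ} {x y : SV m r} :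
    (SG m r).Adj x y ↔ x ≠ y ∧ (SRel m r x y ∨ SRel m r y x) :=
  SimpleGraph.fromRel_adj _ _ _

lemma star_adj {m r : ℕ} {i : Fin m} (x y : (star m r i).verts) :
    (star m r i).coe.Adj x y ↔ (SG m r).Adj x.1 y.1 := by
  exact ⟨fun h => h.2.2, fun h => ⟨x.2, y.2, h⟩⟩

lemma star_walk {m r : ℕ} {i : Fin m} (n : ℕ) : ∀ (j : Fin m) (t : Fin r), t.1 = n →
    ∃ p : (star m r i).coe.Walk ⟨Sum.inl i, rfl⟩ ⟨Sum.inr (i, j, t), rfl⟩, p.length = n + 1 := by
  induction n with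
  | zero =>
    intro j t ht
    have h : (star m r i).coe.Adj ⟨Sum.inl i, rfl⟩ ⟨Sum.inr (i, j, t), rfl⟩ := by
      refine (star_adj _ _).2 (sg_adj.2 ?_)
      exact ⟨by simp, Or.inl (SRel.start i j t ht)⟩
    exact ⟨h.toWalk, rfl⟩
  | succ n ih =>
    intro j t ht
    obtain ⟨p, hp⟩ := ih j ⟨n, by have := t.2; omega⟩ rfl
    have h : (star m r i).coe.Adj ⟨Sum.inr (i, j, ⟨n, by have := t.2; omega⟩), rfl⟩
        ⟨Sum.inr (i, j, t), rfl⟩ := by
      refine (star_adj _ _).2 (sg_adj.2 ?_)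
      refine ⟨?_, Or.inl (SRel.next i j _ t ht)⟩
      simp only [ne_eq, Sum.inr.injEq, Prod.mk.injEq, true_and]
      intro h
      rw [← h] at ht
      simp at ht
    exact ⟨p.concat h, by rw [SimpleGraph.Walk.length_concat, hp]⟩

lemma star_walk' {m r : ℕ} {i : Fin m} (x : (star m r i).verts) :
    ∃ p : (star m r i).coe.Walk ⟨Sum.inl i, rfl⟩ x, p.length ≤ r := by
  obtain ⟨x, hx⟩ := x
  rcases x with k | ⟨k, j, t⟩
  · have hk : k = i := hx
    subst hk
    exact ⟨SimpleGraph.Walk.nil, by simp⟩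
  · have hk : k = i := hx
    subst hk
    obtain ⟨p, hp⟩ := star_walk t.1 j t rfl
    exact ⟨p, by have := t.2; omega⟩

/-- The complete graph on `m` vertices is a depth-`r` minor of the subdivided complete graph. -/
lemma top_minor {m r : ℕ} (hr : 1 ≤ r) : IsDepthMinor r (⊤ : SimpleGraph (Fin m)) (SG m r) := by
  refine ⟨star m r, fun i => ⟨?_, ?_⟩, ?_, ?_⟩
  · rw [SimpleGraph.connected_iff_exists_forall_reachable]
    refine ⟨⟨Sum.inl i, rfl⟩, fun x => ?_⟩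
    obtain ⟨p, -⟩ := star_walk' x
    exact p.reachable
  · refine (iInf_le _ (⟨Sum.inl i, rfl⟩ : (star m r i).verts)).trans ?_
    rw [SimpleGraph.eccent_le_iff]
    intro x
    obtain ⟨p, hp⟩ := star_walk' x
    exact (SimpleGraph.Walk.edist_le p).trans (by exact_mod_cast hp)
  · intro i j hij
    rw [Set.disjoint_left]
    intro x hx hx'
    exact hij ((mem_star.1 hx).symm.trans (mem_star.1 hx'))
  · intro i j hij
    rw [SimpleGraph.top_adj] at hij
    refine ⟨Sum.inr (i, j, ⟨r - 1, by omega⟩), rfl, Sum.inr (j, i, ⟨r - 1, by omega⟩), rfl, ?_⟩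
    rw [SG, SimpleGraph.fromRel_adj]
    refine ⟨?_, Or.inl (SRel.mid i j _ (by simp; omega))⟩
    simp only [ne_eq, Sum.inr.injEq, Prod.mk.injEq, not_and]
    intro h
    exact absurd h hij

lemma avg_top (m : ℕ) (hm : 1 ≤ m) : avgDegree (⊤ : SimpleGraph (Fin m)) = m - 1 := by
  have h1 : (⊤ : SimpleGraph (Fin m)).edgeSet.ncard = m.choose 2 := by
    rw [Set.ncard_eq_toFinset_card']
    have := SimpleGraph.card_edgeFinset_top_eq_card_choose_two (V := Fin m)
    rw [Fintype.card_fin] at this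
    exact this
  have h2 : (0 : ℝ) < m := by exact_mod_cast hm
  rw [avgDegree, h1, Nat.card_fin, Nat.cast_choose_two]
  field_simp

/-- The class of the subgraphs of the graphs `SG m r` with `m ≤ r ^ β`. -/
def subClass (β : ℝ) : GraphClass := fun _ G =>
  ∃ m r : ℕ, 1 ≤ r ∧ (m : ℝ) ≤ (r : ℝ) ^ β ∧ G.IsContained (SG m r)

lemma subClass_monotone (β : ℝ) : (subClass β).Monotone := by
  rintro V W _ _ G H hHG ⟨m, r, hr, hm, hG⟩
  exact ⟨m, r, hr, hm, hHG.trans hG⟩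

lemma subClass_separators {δ : ℝ} (h0 : 0 < δ) (h1 : δ < 1) :
    (subClass ((1 - δ) / δ)).HasSeparators δ := by
  refine ⟨3, ?_⟩
  rintro V _ G ⟨m, r, hr, hm, ⟨f⟩⟩
  obtain ⟨S, B, hS, hSB, hBm, hBr⟩ := sg_separator G f f.injective (fun a b h => f.toHom.map_adj h)
  refine ⟨S, hS, ?_⟩
  have hn0 : (0 : ℝ) ≤ (Nat.card V : ℝ) := Nat.cast_nonneg _
  have hr0 : (0 : ℝ) < (r : ℝ) := by exact_mod_cast hr
  have hB : (B.ncard : ℝ) ≤ (Nat.card V : ℝ) ^ (1 - δ) := by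
    rcases Nat.eq_zero_or_pos B.ncard with hb | hb
    · rw [hb, Nat.cast_zero]
      exact Real.rpow_nonneg hn0 _
    · have hb0 : (0 : ℝ) < (B.ncard : ℝ) := by exact_mod_cast hb
      have e1 : (B.ncard : ℝ) ≤ (r : ℝ) ^ ((1 - δ) / δ) :=
        le_trans (by exact_mod_cast hBm) hm
      have e2 : (B.ncard : ℝ) ^ δ ≤ (r : ℝ) ^ (1 - δ) := by
        have := Real.rpow_le_rpow hb0.le e1 h0.le
        rwa [← Real.rpow_mul hr0.le, div_mul_cancel₀ _ h0.ne'] at this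
      have e3 : (B.ncard : ℝ) * r ≤ (Nat.card V : ℝ) := by exact_mod_cast hBr
      calc (B.ncard : ℝ) = (B.ncard : ℝ) ^ (1 - δ) * (B.ncard : ℝ) ^ δ := by
            rw [← Real.rpow_add hb0]; simp
        _ ≤ (B.ncard : ℝ) ^ (1 - δ) * (r : ℝ) ^ (1 - δ) :=
            mul_le_mul_of_nonneg_left e2 (Real.rpow_nonneg hb0.le _)
        _ = ((B.ncard : ℝ) * r) ^ (1 - δ) := (Real.mul_rpow hb0.le hr0.le).symm
        _ ≤ _ := Real.rpow_le_rpow (by positivity) e3 (by linarith)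
  rcases isEmpty_or_nonempty V with hV | hV
  · have : S = ∅ := Set.eq_empty_of_isEmpty S
    rw [this, Set.ncard_empty, Nat.cast_zero]
    have := Real.rpow_nonneg hn0 (1 - δ)
    linarith
  · have hn1 : (1 : ℝ) ≤ (Nat.card V : ℝ) := by
      have : 0 < Nat.card V := Nat.card_pos
      exact_mod_cast this
    have h2 : (1 : ℝ) ≤ (Nat.card V : ℝ) ^ (1 - δ) := Real.one_le_rpow hn1 (by linarith)
    have h3 : (S.ncard : ℝ) ≤ (B.ncard : ℝ) + 2 := by exact_mod_cast hSB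
    linarith

/-- **Lower bound.** Every element of `A` is at least `1`. -/
theorem one_le_of_mem {c : ℝ} (hc : c ∈ A) : 1 ≤ c := by
  by_contra hlt
  rw [not_le] at hlt
  obtain ⟨hc0, hc⟩ := hc
  set δ : ℝ := (1 - c) / 2 with hδ
  have hδ0 : 0 < δ := by rw [hδ]; linarith
  have hδ1 : δ < 1 := by rw [hδ]; linarith
  set β : ℝ := (1 - δ) / δ with hβ
  have hγ : 0 < β - c / δ := by
    rw [hβ, ← sub_div]
    apply div_pos _ hδ0
    rw [hδ]; linarith
  have hcδ : 0 < c / δ := div_pos hc0 hδ0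
  obtain ⟨f, hf, hO⟩ := hc δ hδ0 hδ1.le (subClass β) (subClass_monotone β)
    (subClass_separators hδ0 hδ1)
  have hlow : ∀ r : ℕ, 1 ≤ r → (r : ℝ) ^ β - 2 ≤ f r := by
    intro r hr
    have hr1 : (1 : ℝ) ≤ (r : ℝ) := by exact_mod_cast hr
    have hβ0 : 0 ≤ β := by linarith
    have h1 : (1 : ℝ) ≤ (r : ℝ) ^ β := Real.one_le_rpow hr1 hβ0
    set m : ℕ := ⌊(r : ℝ) ^ β⌋₊ with hm
    have hm1 : 1 ≤ m := by
      rw [hm, Nat.one_le_floor_iff]
      exact h1
    have : Nonempty (Fin m) := ⟨⟨0, hm1⟩⟩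
    have h2 := hf r (SV m r) (Fin m) (SG m r) ⊤
      ⟨m, r, hr, Nat.floor_le (by linarith), SimpleGraph.IsContained.refl _⟩ (top_minor hr)
    rw [avg_top m hm1] at h2
    have h3 : (r : ℝ) ^ β < m + 1 := Nat.lt_floor_add_one _
    linarith
  obtain ⟨C, hC⟩ := hO.bound
  have hev : ∀ᶠ r : ℕ in atTop, (r : ℝ) ^ (β - c / δ) ≤ |C| + 2 := by
    filter_upwards [hC, eventually_ge_atTop 1] with r h1 hr
    have hr1 : (1 : ℝ) ≤ (r : ℝ) := by exact_mod_cast hr
    have hr0 : (0 : ℝ) < (r : ℝ) := by linarith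
    have h2 : (1 : ℝ) ≤ (r : ℝ) ^ (c / δ) := Real.one_le_rpow hr1 hcδ.le
    have h3 := hlow r hr
    rw [Real.norm_eq_abs, Real.norm_eq_abs, abs_of_nonneg (by linarith : (0:ℝ) ≤ (r : ℝ) ^ (c / δ))]
      at h1
    have h4 : (r : ℝ) ^ β ≤ (|C| + 2) * (r : ℝ) ^ (c / δ) := by
      have := le_abs_self (f r)
      have := mul_le_mul_of_nonneg_right (le_abs_self C)
        (by linarith : (0:ℝ) ≤ (r : ℝ) ^ (c / δ))
      nlinarith
    rw [Real.rpow_sub hr0, div_le_iff₀ (by linarith)]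
    exact h4
  have htop : Tendsto (fun r : ℕ => (r : ℝ) ^ (β - c / δ)) atTop atTop :=
    (tendsto_rpow_atTop hγ).comp tendsto_natCast_atTop_atTop
  have := (hev.and (htop.eventually_gt_atTop (|C| + 2))).exists
  obtain ⟨r, h1, h2⟩ := this
  linarith

end Pool.Agent.E8helper34.Sep
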