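import Pool.Agent.E8helper34.Sep.Upper
import Pool.Agent.E8helper34.Sep.Lower2

/-!
# The infimum is one
-/

set_option autoImplicit false

open Asymptotics Filter

namespace Pool.Agent.E8helper34.Sep

/-- A monotone class with balanced separators of order `O(n ^ (1 - δ))`, `0 < δ < 1`, has expansion
`O(r ^ (1 / δ - 1))`. -/
theorem upper {δ : ℝ} (h0 : 0 < δ) (h1 : δ < 1) {C : GraphClass} (hC : C.Monotone)
    (hS : C.HasSeparators δ) :
    ∃ f : ℕ → ℝ, C.ExpansionBoundedBy f ∧ f =O[atTop] fun r : ℕ => (r : ℝ) ^ ((1 - δ) / δ) := by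
  obtain ⟨K0, hK0⟩ := hS
  set K := max K0 1 with hKdef
  have hK1 : 1 ≤ K := le_max_right _ _
  have hK : ∀ (V : Type) [Finite V] (G : SimpleGraph V), C V G →
      ∃ S : Set V, IsBalancedSeparator G S ∧ (S.ncard : ℝ) ≤ K * (Nat.card V : ℝ) ^ (1 - δ) := by
    intro V _ G hG
    obtain ⟨S, hS, hSn⟩ := hK0 V G hG
    exact ⟨S, hS, hSn.trans (mul_le_mul_of_nonneg_right (le_max_left _ _)
      (Real.rpow_nonneg (Nat.cast_nonneg _) _))⟩
  have hθ1 : (2 / 3 : ℝ) ^ (1 - δ) < 1 := Real.rpow_lt_one (by norm_num) (by norm_num) (by linarith)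
  set K' := K / (1 - (2 / 3 : ℝ) ^ (1 - δ)) with hK'
  have hK'0 : 0 < K' := div_pos (by linarith) (by linarith)
  obtain ⟨hc0, hc1, hα0, hα1⟩ := params h0 h1
  set c := (4 / 3 : ℝ) ^ (δ / 2) - 1 with hc
  set α := 1 / (2 * (3 : ℝ) ^ (δ / 2)) with hα
  set N₁ : ℕ → ℝ := fun r =>
    (2 * K' * (5 * ((r : ℝ) + 1) * (4 / (c * α) + 1)) ^ (1 - δ) / (c * α)) ^ (1 / δ) with hN₁
  refine ⟨fun r => 2 * N₁ r, ?_, ?_⟩
  · intro r V W _ _ _ G H hG hH
    have hN₁0 : 0 < N₁ r := by
      simp only [hN₁]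
      positivity
    have hrec := recursion (H := H) (δ := δ) (K' := K') (R := (r : ℝ) + 1) (N₁ := N₁ r) h0 h1 hN₁0
      (fun U hU D hD => one_step hH hK'0.le h1
        (fun U M => weighted hC h0 h1 (by linarith) hK hG M U.ncard U rfl) U hU D hD)
      (fun N hN => size_cond h0 h1 hK'0 (by positivity) hc0 hα0 rfl N hN)
    -- the bound for the whole graph
    set n := Nat.card W with hn
    have hn0 : (0 : ℝ) < n := by
      have : 0 < Nat.card W := Nat.card_pos
      exact_mod_cast this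
    have hun : (Set.univ : Set W).ncard = n := Set.ncard_univ W
    have hbound : ((ePairs H Set.univ Set.univ).ncard : ℝ) ≤ 2 * N₁ r * n := by
      by_cases hcase : N₁ r / 3 ≤ n
      · refine (hrec n Set.univ hun hcase).trans ?_
        apply mul_le_mul_of_nonneg_left _ (by linarith)
        have : 0 ≤ α * (N₁ r / n) ^ (δ / 2) := by positivity
        have h2 : (n : ℝ) * (1 - α * (N₁ r / n) ^ (δ / 2)) ≤ n * 1 :=
          mul_le_mul_of_nonneg_left (by linarith) hn0.le
        linarith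
      · rw [not_le] at hcase
        have e1 : ((ePairs H Set.univ Set.univ).ncard : ℝ) ≤ (n : ℝ) * n := by
          have := ePairs_le_sq H Set.univ
          rw [hun] at this
          exact_mod_cast this
        refine e1.trans (mul_le_mul_of_nonneg_right ?_ hn0.le)
        linarith
    rw [avgDegree, div_le_iff₀ hn0]
    have h2 : (2 : ℝ) * (H.edgeSet.ncard : ℝ) ≤ ((ePairs H Set.univ Set.univ).ncard : ℝ) := by
      exact_mod_cast two_edges_le H
    exact h2.trans hbound
  · -- growth of the bound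
    set B := 2 * (2 * K' * (10 * (4 / (c * α) + 1)) ^ (1 - δ) / (c * α)) ^ (1 / δ) with hB
    refine IsBigO.of_bound B ?_
    filter_upwards [eventually_ge_atTop 1] with r hr
    have hr1 : (1 : ℝ) ≤ (r : ℝ) := by exact_mod_cast hr
    have hr0 : (0 : ℝ) < (r : ℝ) := by linarith
    have hC₁ : 0 < 4 / (c * α) + 1 := by positivity
    have hpos : 0 ≤ 2 * N₁ r := by
      simp only [hN₁]
      positivity
    rw [Real.norm_eq_abs, Real.norm_eq_abs, abs_of_nonneg hpos,
      abs_of_nonneg (Real.rpow_nonneg hr0.le _), hB]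
    simp only [hN₁]
    rw [mul_assoc 2 _ ((r : ℝ) ^ ((1 - δ) / δ))]
    apply mul_le_mul_of_nonneg_left _ (by norm_num)
    have e1 : (r : ℝ) ^ ((1 - δ) / δ) = ((r : ℝ) ^ (1 - δ)) ^ (1 / δ) := by
      rw [← Real.rpow_mul hr0.le]
      congr 1
      ring
    rw [e1, ← Real.mul_rpow (by positivity) (by positivity)]
    apply Real.rpow_le_rpow (by positivity) _ (by positivity)
    have e2 : (5 * ((r : ℝ) + 1) * (4 / (c * α) + 1)) ^ (1 - δ) ≤
        (10 * (4 / (c * α) + 1)) ^ (1 - δ) * (r : ℝ) ^ (1 - δ) := by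
      rw [← Real.mul_rpow (by positivity) hr0.le]
      apply Real.rpow_le_rpow (by positivity) _ (by linarith)
      nlinarith
    calc 2 * K' * (5 * ((r : ℝ) + 1) * (4 / (c * α) + 1)) ^ (1 - δ) / (c * α)
        ≤ 2 * K' * ((10 * (4 / (c * α) + 1)) ^ (1 - δ) * (r : ℝ) ^ (1 - δ)) / (c * α) := by
          gcongr
      _ = _ := by ring

/-- Every real number `c ≥ 1` belongs to `A`. -/
theorem mem_of_one_le {c : ℝ} (hc : 1 ≤ c) : c ∈ A := by
  refine ⟨by linarith, fun δ h0 h1 C hC hS => ?_⟩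
  rcases lt_or_eq_of_le h1 with h1 | h1
  · obtain ⟨f, hf, hO⟩ := upper h0 h1 hC hS
    refine ⟨f, hf, hO.trans ?_⟩
    refine IsBigO.of_bound 1 ?_
    filter_upwards [eventually_ge_atTop 1] with r hr
    have hr1 : (1 : ℝ) ≤ (r : ℝ) := by exact_mod_cast hr
    have hr0 : (0 : ℝ) ≤ (r : ℝ) := by linarith
    rw [Real.norm_eq_abs, Real.norm_eq_abs, abs_of_nonneg (Real.rpow_nonneg hr0 _),
      abs_of_nonneg (Real.rpow_nonneg hr0 _), one_mul]
    apply Real.rpow_le_rpow_of_exponent_le hr1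
    gcongr
    linarith
  · subst h1
    have hS' : C.HasSeparators (1 / 2) := by
      obtain ⟨K, hK⟩ := hS
      refine ⟨max K 0, fun V _ G hG => ?_⟩
      obtain ⟨S, hS, hSn⟩ := hK V G hG
      refine ⟨S, hS, ?_⟩
      rcases isEmpty_or_nonempty V with hV | hV
      · have : S = ∅ := Set.eq_empty_of_isEmpty S
        rw [this, Set.ncard_empty, Nat.cast_zero]
        exact mul_nonneg (le_max_right _ _) (Real.rpow_nonneg (Nat.cast_nonneg _) _)
      · have hn1 : (1 : ℝ) ≤ (Nat.card V : ℝ) := by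
          have : 0 < Nat.card V := Nat.card_pos
          exact_mod_cast this
        rw [sub_self, Real.rpow_zero, mul_one] at hSn
        have h2 : (1 : ℝ) ≤ (Nat.card V : ℝ) ^ (1 - 1 / 2 : ℝ) := Real.one_le_rpow hn1 (by norm_num)
        calc (S.ncard : ℝ) ≤ K := hSn
          _ ≤ max K 0 * 1 := by rw [mul_one]; exact le_max_left _ _
          _ ≤ _ := mul_le_mul_of_nonneg_left h2 (le_max_right _ _)
    obtain ⟨f, hf, hO⟩ := upper (by norm_num) (by norm_num) hC hS'
    refine ⟨f, hf, hO.trans ?_⟩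
    refine IsBigO.of_bound 1 ?_
    filter_upwards [eventually_ge_atTop 1] with r hr
    have hr1 : (1 : ℝ) ≤ (r : ℝ) := by exact_mod_cast hr
    have hr0 : (0 : ℝ) ≤ (r : ℝ) := by linarith
    rw [Real.norm_eq_abs, Real.norm_eq_abs, abs_of_nonneg (Real.rpow_nonneg hr0 _),
      abs_of_nonneg (Real.rpow_nonneg hr0 _), one_mul]
    apply Real.rpow_le_rpow_of_exponent_le hr1
    norm_num
    exact hc

theorem A_eq : A = Set.Ici 1 := by
  ext c
  exact ⟨fun h => one_le_of_mem h, fun h => mem_of_one_le h⟩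

end Pool.Agent.E8helper34.Sep
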