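import Mathlib

/-!
# Greedy hitting sets
-/

set_option autoImplicit false

namespace Pool.Agent.E8helper34.Sep

open Finset

lemma greedy {α ι : Type} [Fintype ι] [DecidableEq α] (E : Finset α) (hE : E.Nonempty)
    (h : ι → Finset α) (hsub : ∀ i, h i ⊆ E) (D : ℕ) (hD : ∀ i, E.card ≤ D * (h i).card) (M : ℕ) :
    ∃ F ⊆ E, F.card ≤ M ∧
      ((univ.filter fun i => Disjoint F (h i)).card : ℝ) ≤
        (Fintype.card ι : ℝ) * (1 - 1 / (D : ℝ)) ^ M := by
  classical
  induction M with
  | zero =>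
    refine ⟨∅, empty_subset _, by simp, ?_⟩
    simp
  | succ M ih =>
    obtain ⟨F, hF, hc, hn⟩ := ih
    set J := univ.filter fun i => Disjoint F (h i) with hJ
    rcases isEmpty_or_nonempty ι with hι | ⟨⟨i0⟩⟩
    · refine ⟨F, hF, by omega, ?_⟩
      simp
    have hEc : 0 < E.card := hE.card_pos
    have hD0 : 0 < D := by
      rcases Nat.eq_zero_or_pos D with h0 | h0
      · have := hD i0
        rw [h0] at this
        omega
      · exact h0
    have hDR : (1 : ℝ) ≤ (D : ℝ) := by exact_mod_cast hD0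
    have hDR0 : (0 : ℝ) < (D : ℝ) := by linarith
    -- some element of `E` hits many sets of `J`
    have hsum : ∑ e ∈ E, (J.filter fun i => e ∈ h i).card = ∑ i ∈ J, (h i).card := by
      have h0 := Finset.sum_card_bipartiteAbove_eq_sum_card_bipartiteBelow (s := E) (t := J)
        (fun e i => e ∈ h i)
      simp only [bipartiteAbove, bipartiteBelow] at h0
      rw [h0]
      apply Finset.sum_congr rfl
      intro i _
      congr 1
      ext e
      simp only [mem_filter]
      exact ⟨fun h' => h'.2, fun h' => ⟨hsub i h', h'⟩⟩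
    have hex : ∃ e ∈ E, J.card ≤ D * (J.filter fun i => e ∈ h i).card := by
      by_contra hcon
      push Not at hcon
      have h1 : ∑ e ∈ E, D * (J.filter fun i => e ∈ h i).card < ∑ e ∈ E, J.card :=
        Finset.sum_lt_sum_of_nonempty hE hcon
      rw [← Finset.mul_sum, hsum, Finset.mul_sum, Finset.sum_const, smul_eq_mul] at h1
      have h2 : ∑ i ∈ J, E.card ≤ ∑ i ∈ J, D * (h i).card := Finset.sum_le_sum fun i _ => hD i
      rw [Finset.sum_const, smul_eq_mul, mul_comm] at h2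
      omega
    obtain ⟨e, heE, he⟩ := hex
    refine ⟨insert e F, insert_subset heE hF, (card_insert_le _ _).trans (by omega), ?_⟩
    have hsub2 : (univ.filter fun i => Disjoint (insert e F) (h i)) = J \ (J.filter fun i => e ∈ h i) := by
      ext i
      simp only [mem_filter, mem_univ, true_and, disjoint_insert_left, mem_sdiff, hJ]
      tauto
    have hcard : ((univ.filter fun i => Disjoint (insert e F) (h i)).card : ℝ) =
        (J.card : ℝ) - ((J.filter fun i => e ∈ h i).card : ℝ) := by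
      rw [hsub2, card_sdiff_of_subset (filter_subset _ _), Nat.cast_sub (card_le_card (filter_subset _ _))]
    rw [hcard, pow_succ]
    have he' : (J.card : ℝ) ≤ (D : ℝ) * ((J.filter fun i => e ∈ h i).card : ℝ) := by exact_mod_cast he
    have h3 : (J.card : ℝ) / (D : ℝ) ≤ ((J.filter fun i => e ∈ h i).card : ℝ) := by
      rw [div_le_iff₀ hDR0]
      linarith
    have h4 : 0 ≤ 1 - 1 / (D : ℝ) := by
      rw [sub_nonneg, div_le_one hDR0]
      exact hDR
    calc (J.card : ℝ) - ((J.filter fun i => e ∈ h i).card : ℝ)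
        ≤ (J.card : ℝ) - (J.card : ℝ) / (D : ℝ) := by linarith
      _ = (J.card : ℝ) * (1 - 1 / (D : ℝ)) := by ring
      _ ≤ ((Fintype.card ι : ℝ) * (1 - 1 / (D : ℝ)) ^ M) * (1 - 1 / (D : ℝ)) :=
          mul_le_mul_of_nonneg_right hn h4
      _ = _ := by ring

lemma three_lt_exp_two : (3 : ℝ) < Real.exp 2 := by
  have h1 := Real.exp_one_gt_d9
  have h2 : Real.exp 2 = Real.exp 1 * Real.exp 1 := by
    rw [← Real.exp_add]; norm_num
  rw [h2]
  nlinarith

/-- A family of at most `3 ^ N` subsets of `E`, each containing a fraction `1 / D` of `E`, has a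
hitting set with at most `2 D N` elements. -/
lemma hitting {α ι : Type} [Fintype ι] [DecidableEq α] (E : Finset α) (hE : E.Nonempty)
    (h : ι → Finset α) (hsub : ∀ i, h i ⊆ E) (D N : ℕ) (hN : 1 ≤ N) (hD0 : 1 ≤ D)
    (hD : ∀ i, E.card ≤ D * (h i).card) (hι : Fintype.card ι ≤ 3 ^ N) :
    ∃ F ⊆ E, F.card ≤ 2 * D * N ∧ ∀ i, ¬ Disjoint F (h i) := by
  obtain ⟨F, hF, hc, hn⟩ := greedy E hE h hsub D hD (2 * D * N)
  refine ⟨F, hF, hc, fun i hi => ?_⟩
  have h1 : 1 ≤ (univ.filter fun i => Disjoint F (h i)).card := by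
    rw [Nat.one_le_iff_ne_zero, ← Nat.pos_iff_ne_zero, card_pos]
    exact ⟨i, by simp [hi]⟩
  have h2 : (1 : ℝ) ≤ ((univ.filter fun i => Disjoint F (h i)).card : ℝ) := by exact_mod_cast h1
  have hDR : (1 : ℝ) ≤ (D : ℝ) := by exact_mod_cast hD0
  have hDR0 : (0 : ℝ) < (D : ℝ) := by linarith
  have h4 : 0 ≤ 1 - 1 / (D : ℝ) := by
    rw [sub_nonneg, div_le_one hDR0]
    exact hDR
  have h5 : (1 - 1 / (D : ℝ)) ^ (2 * D * N) ≤ Real.exp (-2) ^ N := by
    calc (1 - 1 / (D : ℝ)) ^ (2 * D * N) ≤ Real.exp (-(1 / (D : ℝ))) ^ (2 * D * N) :=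
          pow_le_pow_left₀ h4 (Real.one_sub_le_exp_neg _) _
      _ = Real.exp (-2) ^ N := by
          rw [← Real.exp_nat_mul, ← Real.exp_nat_mul]
          congr 1
          push_cast
          field_simp
  have h6 : (Fintype.card ι : ℝ) ≤ 3 ^ N := by exact_mod_cast hι
  have h7 : (3 : ℝ) * Real.exp (-2) < 1 := by
    rw [Real.exp_neg, ← div_eq_mul_inv, div_lt_one (Real.exp_pos _)]
    exact three_lt_exp_two
  have h8 : ((3 : ℝ) * Real.exp (-2)) ^ N < 1 :=
    pow_lt_one₀ (by positivity) h7 (by omega)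
  have h9 : (Fintype.card ι : ℝ) * (1 - 1 / (D : ℝ)) ^ (2 * D * N) ≤ 3 ^ N * Real.exp (-2) ^ N :=
    mul_le_mul h6 h5 (pow_nonneg h4 _) (by positivity)
  rw [← mul_pow] at h9
  linarith

end Pool.Agent.E8helper34.Sep
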