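import Pool.Agent.E8helper34.Sep.Defs

/-!
# The lower bound: subdivided complete graphs
-/

set_option autoImplicit false

open Asymptotics Filter

namespace Pool.Agent.E8helper34.Sep

/-- A separator is balanced if its complement has a labelling, constant along edges, with small
fibres. -/
lemma balanced_of_label {V L : Type} [Finite V] (G : SimpleGraph V) (S : Set V) (φ : V → L)
    (h : ∀ a b, a ∉ S → b ∉ S → G.Adj a b → φ a = φ b)
    (hc : ∀ l, 3 * {v | v ∉ S ∧ φ v = l}.ncard ≤ 2 * Nat.card V) : IsBalancedSeparator G S := by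
  intro c
  induction c using SimpleGraph.ConnectedComponent.ind with
  | _ v0 =>
  have key : ∀ v : (Sᶜ : Set V), (G.induce Sᶜ).Reachable v0 v → φ v.1 = φ v0.1 := by
    rintro v ⟨p⟩
    induction p with
    | nil => rfl
    | @cons a b d hab _ ih =>
      rw [ih]
      exact (h a.1 b.1 a.2 b.2 hab).symm
  have hsub : Subtype.val '' ((G.induce Sᶜ).connectedComponentMk v0).supp ⊆
      {v | v ∉ S ∧ φ v = φ v0.1} := by
    rintro _ ⟨v, hv, rfl⟩
    refine ⟨v.2, key v ?_⟩
    exact (SimpleGraph.ConnectedComponent.exact hv).symm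
  have h1 : ((G.induce Sᶜ).connectedComponentMk v0).supp.ncard ≤
      {v | v ∉ S ∧ φ v = φ v0.1}.ncard := by
    rw [← Set.ncard_image_of_injective _ Subtype.val_injective]
    exact Set.ncard_le_ncard hsub (Set.toFinite _)
  have h2 := hc (φ v0.1)
  omega

/-- vertices of the subdivided complete graph: `Sum.inl i` is a branch vertex, `Sum.inr (i, j, t)`,
`0 ≤ t < r`, are the vertices of the half starting at `i` of the path between `i` and `j` -/
abbrev SV (m r : ℕ) : Type := Fin m ⊕ (Fin m × Fin m × Fin r)

/-- the edges of the subdivided complete graph, in one direction -/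
inductive SRel (m r : ℕ) : SV m r → SV m r → Prop
  | start (i j : Fin m) (t : Fin r) (ht : t.1 = 0) : SRel m r (Sum.inl i) (Sum.inr (i, j, t))
  | next (i j : Fin m) (s t : Fin r) (h : t.1 = s.1 + 1) :
      SRel m r (Sum.inr (i, j, s)) (Sum.inr (i, j, t))
  | mid (i j : Fin m) (t : Fin r) (ht : t.1 + 1 = r) :
      SRel m r (Sum.inr (i, j, t)) (Sum.inr (j, i, t))

/-- the complete graph on `m` vertices with every edge subdivided `2 r` times (together with a
dangling path with `r` edges at every branch vertex) -/
def SG (m r : ℕ) : SimpleGraph (SV m r) := SimpleGraph.fromRel (SRel m r)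

/-- the branch vertex to which a vertex belongs -/
def st {m r : ℕ} : SV m r → Fin m
  | Sum.inl i => i
  | Sum.inr (i, _, _) => i

/-- the path to which a subdivision vertex belongs -/
def pa {m r : ℕ} : SV m r → Option (Sym2 (Fin m))
  | Sum.inl _ => none
  | Sum.inr (i, j, _) => some s(i, j)

/-- the position of a subdivision vertex on its path -/
def pos {m r : ℕ} : SV m r → ℕ
  | Sum.inl _ => 0
  | Sum.inr (i, j, t) => if i ≤ j then t.1 else 2 * r - 1 - t.1

lemma pa_pos_inj {m r : ℕ} {x y : SV m r} {e : Sym2 (Fin m)} (hx : pa x = some e)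
    (hy : pa y = some e) (h : pos x = pos y) : x = y := by
  rcases x with i | ⟨i, j, t⟩
  · simp [pa] at hx
  rcases y with i' | ⟨i', j', t'⟩
  · simp [pa] at hy
  simp only [pa, Option.some.injEq] at hx hy
  simp only [pos] at h
  rw [← hy] at hx
  have h1 := t.2
  have h2 := t'.2
  rcases Sym2.eq_iff.1 hx with ⟨rfl, rfl⟩ | ⟨rfl, rfl⟩
  · have : t = t' := by
      apply Fin.ext
      split_ifs at h <;> omega
    rw [this]
  · rcases lt_trichotomy i j with hij | hij | hij
    · rw [if_pos hij.le, if_neg (not_le.2 hij)] at h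
      omega
    · subst hij
      rw [if_pos le_rfl, if_pos le_rfl] at h
      have : t = t' := Fin.ext h
      rw [this]
    · rw [if_neg (not_le.2 hij), if_pos hij.le] at h
      omega

lemma median {V : Type} [Finite V] (P : Set V) (g : V → ℕ) :
    ∃ q : ℕ, 2 * {v | v ∈ P ∧ g v < q}.ncard ≤ P.ncard ∧ 2 * {v | v ∈ P ∧ q < g v}.ncard ≤ P.ncard := by
  classical
  have hex : ∃ q : ℕ, 2 * {v | v ∈ P ∧ q < g v}.ncard ≤ P.ncard := by
    obtain ⟨M, hM⟩ := (Set.finite_range g).bddAbove
    refine ⟨M, ?_⟩
    have : {v | v ∈ P ∧ M < g v} = ∅ := by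
      ext v
      simp only [Set.mem_ofPred_eq, Set.mem_empty_iff_false, iff_false, not_and, not_lt]
      exact fun _ => hM (Set.mem_range_self v)
    rw [this]
    simp
  refine ⟨Nat.find hex, ?_, Nat.find_spec hex⟩
  rcases Nat.eq_zero_or_pos (Nat.find hex) with h0 | h0
  · rw [h0]
    simp
  · have h1 := Nat.find_min hex (Nat.sub_lt h0 one_pos)
    have h2 : {v | v ∈ P ∧ g v < Nat.find hex}.ncard + {v | v ∈ P ∧ Nat.find hex - 1 < g v}.ncard
        = P.ncard := by
      rw [← Set.ncard_union_eq ?_ (Set.toFinite _) (Set.toFinite _)]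
      · congr 1
        ext v
        simp only [Set.mem_union, Set.mem_ofPred_eq]
        constructor
        · rintro (h | h) <;> exact h.1
        · intro h
          by_cases h' : g v < Nat.find hex
          · exact Or.inl ⟨h, h'⟩
          · exact Or.inr ⟨h, by omega⟩
      · rw [Set.disjoint_left]
        rintro v ⟨_, hv⟩ ⟨_, hv'⟩
        omega
    omega

/-- Two disjoint fibres. -/
lemma two_fibres {V L : Type} [Finite V] (g : V → L) {a b : L} (hab : a ≠ b)
    (h : {v | g v = a}.ncard ≤ {v | g v = b}.ncard) : 2 * {v | g v = a}.ncard ≤ Nat.card V := by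
  have h1 : {v | g v = a}.ncard + {v | g v = b}.ncard ≤ Nat.card V := by
    rw [← Set.ncard_union_eq ?_ (Set.toFinite _) (Set.toFinite _)]
    · rw [← Set.ncard_univ]
      exact Set.ncard_le_ncard (Set.subset_univ _) (Set.toFinite _)
    · rw [Set.disjoint_left]
      rintro v hv hv'
      exact hab (hv.symm.trans hv')
  omega

/-- Subgraphs of subdivided complete graphs have small balanced separators. -/
theorem sg_separator {m r : ℕ} {V : Type} [Finite V] (G : SimpleGraph V) (f : V → SV m r)
    (hf : Function.Injective f) (hadj : ∀ a b, G.Adj a b → (SG m r).Adj (f a) (f b)) :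
    ∃ S B : Set V, IsBalancedSeparator G S ∧ S.ncard ≤ B.ncard + 2 ∧ B.ncard ≤ m ∧
      B.ncard * r ≤ Nat.card V := by
  classical
  set B : Set V := {v | ∃ i, f v = Sum.inl i ∧ ∃ j, ∀ t : Fin r, ∃ w, f w = Sum.inr (i, j, t)}
    with hB
  have hBm : B.ncard ≤ m := by
    have h1 : Nat.card B ≤ Nat.card (Fin m) := by
      refine Nat.card_le_card_of_injective (fun v : B => st (f v.1)) ?_
      rintro ⟨v, i, hi, _⟩ ⟨w, j, hj, _⟩ hvw
      simp only [hi, hj, st] at hvw
      apply Subtype.ext
      apply hf
      rw [hi, hj, hvw]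
    rwa [Nat.card_fin] at h1
  have hBr : B.ncard * r ≤ Nat.card V := by
    have hch : ∀ (v : B) (t : Fin r), ∃ w : V, ∃ j, f w = Sum.inr (st (f v.1), j, t) := by
      rintro ⟨v, i, hi, j, hj⟩ t
      obtain ⟨w, hw⟩ := hj t
      refine ⟨w, j, ?_⟩
      rw [hw]
      simp only [hi, st]
    choose w jj hw using hch
    have h1 : Nat.card (B × Fin r) ≤ Nat.card V := by
      refine Nat.card_le_card_of_injective (fun p : B × Fin r => w p.1 p.2) ?_
      rintro ⟨v, t⟩ ⟨v', t'⟩ hvw
      simp only at hvw
      have h2 : f (w v t) = f (w v' t') := by rw [hvw]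
      rw [hw, hw] at h2
      simp only [Sum.inr.injEq, Prod.mk.injEq] at h2
      obtain ⟨h3, _, h4⟩ := h2
      have h5 : v = v' := by
        obtain ⟨v, i, hi, _⟩ := v
        obtain ⟨v', i', hi', _⟩ := v'
        apply Subtype.ext
        apply hf
        simp only [hi, hi', st] at h3
        rw [hi, hi', h3]
      rw [h5, h4]
    rwa [Nat.card_prod, Nat.card_fin] at h1
  rcases isEmpty_or_nonempty V with hV | ⟨⟨v0⟩⟩
  · refine ⟨∅, B, ?_, by simp, hBm, hBr⟩
    intro c
    induction c using SimpleGraph.ConnectedComponent.ind with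
    | _ v => exact hV.elim v.1
  obtain ⟨i0, -, hi0⟩ := Finset.exists_max_image (Finset.univ : Finset (Fin m))
    (fun i => {v | st (f v) = i}.ncard) ⟨st (f v0), Finset.mem_univ _⟩
  obtain ⟨e0, -, he0⟩ := Finset.exists_max_image (Finset.univ : Finset (Sym2 (Fin m)))
    (fun e => {v | pa (f v) = some e}.ncard) ⟨s(st (f v0), st (f v0)), Finset.mem_univ _⟩
  obtain ⟨q, hq1, hq2⟩ := median {v | pa (f v) = some e0} (fun v => pos (f v))
  have hP : {v | pa (f v) = some e0}.ncard ≤ Nat.card V := by
    rw [← Set.ncard_univ]
    exact Set.ncard_le_ncard (Set.subset_univ _) (Set.toFinite _)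
  set S : Set V := B ∪ ({v | f v = Sum.inl i0} ∪ {v | pa (f v) = some e0 ∧ pos (f v) = q}) with hS
  have hS1 : ∀ v, v ∉ S → f v ≠ Sum.inl i0 := fun v hv h => hv (Or.inr (Or.inl h))
  have hS2 : ∀ v, v ∉ S → pa (f v) = some e0 → pos (f v) ≠ q :=
    fun v hv h h' => hv (Or.inr (Or.inr ⟨h, h'⟩))
  have hSB : ∀ v, v ∉ S → v ∉ B := fun v hv h => hv (Or.inl h)
  refine ⟨S, B, ?_, ?_, hBm, hBr⟩
  swap
  · have h1 : {v | f v = Sum.inl i0}.ncard ≤ 1 := by
      rw [Set.ncard_le_one (Set.toFinite _)]
      intro a ha b hb
      exact hf (ha.trans hb.symm)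
    have h2 : {v | pa (f v) = some e0 ∧ pos (f v) = q}.ncard ≤ 1 := by
      rw [Set.ncard_le_one (Set.toFinite _)]
      intro a ha b hb
      exact hf (pa_pos_inj ha.1 hb.1 (ha.2.trans hb.2.symm))
    have h3 : S.ncard ≤ _ := Set.ncard_union_le B
      ({v | f v = Sum.inl i0} ∪ {v | pa (f v) = some e0 ∧ pos (f v) = q})
    have h4 := Set.ncard_union_le {v | f v = Sum.inl i0} {v | pa (f v) = some e0 ∧ pos (f v) = q}
    omega
  set att : Fin m → Fin m → Fin r → Prop := fun i j t => (∃ w, w ∉ S ∧ f w = Sum.inl i) ∧
    ∀ s : Fin r, s ≤ t → ∃ w, w ∉ S ∧ f w = Sum.inr (i, j, s) with hatt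
  set lab : SV m r → Fin m ⊕ (Sym2 (Fin m) × Prop) := fun x =>
    match x with
    | Sum.inl i => Sum.inl i
    | Sum.inr (i, j, t) => if att i j t then Sum.inl i else
        Sum.inr (s(i, j), (s(i, j) = e0 ∧ pos (Sum.inr (i, j, t) : SV m r) < q)) with hlab
  have lab1 : ∀ i, lab (Sum.inl i) = Sum.inl i := fun i => rfl
  have lab2 : ∀ i j t, att i j t → lab (Sum.inr (i, j, t)) = Sum.inl i := fun i j t h => if_pos h
  have lab3 : ∀ i j t, ¬ att i j t → lab (Sum.inr (i, j, t)) =
      Sum.inr (s(i, j), (s(i, j) = e0 ∧ pos (Sum.inr (i, j, t) : SV m r) < q)) :=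
    fun i j t h => if_neg h
  have side : ∀ x y : SV m r, pa x = pa y → (pa x = some e0 → pos x ≠ q) →
      (pa y = some e0 → pos y ≠ q) → (pos x = pos y + 1 ∨ pos y = pos x + 1) →
      ((pa x = some e0 ∧ pos x < q) ↔ (pa y = some e0 ∧ pos y < q)) := by
    intro x y hxy hx hy hp
    rw [← hxy]
    constructor
    · rintro ⟨h1, h2⟩
      have := hx h1
      have := hy (hxy ▸ h1)
      exact ⟨h1, by omega⟩
    · rintro ⟨h1, h2⟩
      have := hx h1
      have := hy (hxy ▸ h1)
      exact ⟨h1, by omega⟩
  have hcon : ∀ a b, a ∉ S → b ∉ S → f a ≠ f b → SRel m r (f a) (f b) → lab (f a) = lab (f b) := by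
    intro a b ha hb hne hR
    generalize hx : f a = x at hR
    generalize hy : f b = y at hR
    cases hR with
    | start i j t ht =>
      rw [lab1, lab2]
      refine ⟨⟨a, ha, hx⟩, fun s hs => ⟨b, hb, ?_⟩⟩
      have : s = t := by
        apply Fin.ext
        have : s.1 ≤ t.1 := hs
        omega
      rw [hy, this]
    | next i j s t h =>
      have hiff : att i j s ↔ att i j t := by
        constructor
        · rintro ⟨h1, h2⟩
          refine ⟨h1, fun u hu => ?_⟩
          by_cases hus : u ≤ s
          · exact h2 u hus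
          · have : u = t := by
              apply Fin.ext
              have h3 : u.1 ≤ t.1 := hu
              have h4 : ¬ u.1 ≤ s.1 := hus
              omega
            exact ⟨b, hb, by rw [hy, this]⟩
        · rintro ⟨h1, h2⟩
          refine ⟨h1, fun u hu => h2 u ?_⟩
          have h3 : u.1 ≤ s.1 := hu
          have h4 : u.1 ≤ t.1 := by omega
          exact h4
      by_cases hs : att i j s
      · rw [lab2 _ _ _ hs, lab2 _ _ _ (hiff.1 hs)]
      · rw [lab3 _ _ _ hs, lab3 _ _ _ (fun h => hs (hiff.2 h))]
        have h5 := side (f a) (f b) (by rw [hx, hy]; rfl) (hS2 a ha) (hS2 b hb) (by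
          rw [hx, hy]
          simp only [pos]
          have := s.2
          have := t.2
          split_ifs <;> omega)
        rw [hx, hy] at h5
        simp only [pa, Option.some.injEq] at h5
        rw [propext h5]
    | mid i j t ht =>
      have hij : i ≠ j := by
        rintro rfl
        exact hne (hx.trans hy.symm)
      have hna : ∀ k l, ¬ att k l t := by
        rintro k l ⟨⟨w, hw, hw'⟩, h2⟩
        refine hSB w hw ⟨k, hw', l, fun s => ?_⟩
        obtain ⟨w', _, hw''⟩ := h2 s (by
          have := s.2
          show s.1 ≤ t.1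
          omega)
        exact ⟨w', hw''⟩
      rw [lab3 _ _ _ (hna i j), lab3 _ _ _ (hna j i)]
      have h5 := side (f a) (f b) (by rw [hx, hy]; simp only [pa]; rw [Sym2.eq_swap])
        (hS2 a ha) (hS2 b hb) (by
          rw [hx, hy]
          simp only [pos]
          have := t.2
          rcases lt_or_gt_of_ne hij with h | h
          · rw [if_pos h.le, if_neg (not_le.2 h)]
            omega
          · rw [if_neg (not_le.2 h), if_pos h.le]
            omega)
      rw [hx, hy] at h5
      simp only [pa, Option.some.injEq] at h5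
      rw [propext h5, Sym2.eq_swap]
  apply balanced_of_label G S (fun v => lab (f v))
  · intro a b ha hb hab
    have h1 := hadj a b hab
    rw [SG, SimpleGraph.fromRel_adj] at h1
    rcases h1 with ⟨hne, h1 | h1⟩
    · exact hcon a b ha hb hne h1
    · exact (hcon b a hb ha hne.symm h1).symm
  · intro l
    have hnn : 2 * {v | v ∉ S ∧ lab (f v) = l}.ncard ≤ Nat.card V := by
      rcases l with i | ⟨e, b⟩
      · by_cases hi : i = i0
        · have : {v | v ∉ S ∧ lab (f v) = Sum.inl i} = ∅ := by
            ext v
            simp only [Set.mem_ofPred_eq, Set.mem_empty_iff_false, iff_false, not_and]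
            intro hv hl
            subst hi
            generalize hx : f v = x at hl
            rcases x with k | ⟨k, j, t⟩
            · rw [lab1] at hl
              exact hS1 v hv (by rw [hx, Sum.inl.inj hl])
            · by_cases ha : att k j t
              · rw [lab2 _ _ _ ha] at hl
                obtain ⟨⟨w, hw, hw'⟩, _⟩ := ha
                exact hS1 w hw (by rw [hw', Sum.inl.inj hl])
              · rw [lab3 _ _ _ ha] at hl
                simp at hl
          rw [this]
          simp
        · have hsub : {v | v ∉ S ∧ lab (f v) = Sum.inl i} ⊆ {v | st (f v) = i} := by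
            rintro v ⟨hv, hl⟩
            simp only [Set.mem_ofPred_eq]
            generalize hx : f v = x at hl
            rcases x with k | ⟨k, j, t⟩
            · rw [lab1] at hl
              simpa [st] using hl
            · by_cases ha : att k j t
              · rw [lab2 _ _ _ ha] at hl
                simpa [st] using hl
              · rw [lab3 _ _ _ ha] at hl
                simp at hl
          have h1 := Set.ncard_le_ncard hsub (Set.toFinite _)
          have h2 := two_fibres (fun v => st (f v)) hi (hi0 i (Finset.mem_univ _))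
          omega
      · have hsub0 : ∀ v, v ∉ S → lab (f v) = Sum.inr (e, b) → pa (f v) = some e ∧
            b = (pa (f v) = some e0 ∧ pos (f v) < q) := by
          intro v hv hl
          generalize hx : f v = x at hl
          rcases x with k | ⟨k, j, t⟩
          · rw [lab1] at hl
            simp at hl
          · by_cases ha : att k j t
            · rw [lab2 _ _ _ ha] at hl
              simp at hl
            · rw [lab3 _ _ _ ha] at hl
              simp only [Sum.inr.injEq, Prod.mk.injEq] at hl
              refine ⟨by rw [← hl.1]; rfl, ?_⟩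
              rw [← hl.2]
              simp only [pa, Option.some.injEq]
        by_cases he : e = e0
        · subst he
          by_cases hb : b
          · have hsub : {v | v ∉ S ∧ lab (f v) = Sum.inr (e, b)} ⊆
                {v | v ∈ {v | pa (f v) = some e} ∧ pos (f v) < q} := by
              rintro v ⟨hv, hl⟩
              obtain ⟨h1, h2⟩ := hsub0 v hv hl
              rw [h2] at hb
              exact ⟨h1, hb.2⟩
            have h1 := Set.ncard_le_ncard hsub (Set.toFinite _)
            omega
          · have hsub : {v | v ∉ S ∧ lab (f v) = Sum.inr (e, b)} ⊆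
                {v | v ∈ {v | pa (f v) = some e} ∧ q < pos (f v)} := by
              rintro v ⟨hv, hl⟩
              obtain ⟨h1, h2⟩ := hsub0 v hv hl
              rw [h2] at hb
              have h3 := hS2 v hv h1
              have h4 : ¬ pos (f v) < q := fun h => hb ⟨h1, h⟩
              exact ⟨h1, by omega⟩
            have h1 := Set.ncard_le_ncard hsub (Set.toFinite _)
            omega
        · have hsub : {v | v ∉ S ∧ lab (f v) = Sum.inr (e, b)} ⊆ {v | pa (f v) = some e} := by
            rintro v ⟨hv, hl⟩
            exact (hsub0 v hv hl).1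
          have h1 := Set.ncard_le_ncard hsub (Set.toFinite _)
          have h2 := two_fibres (fun v => pa (f v)) (a := some e) (b := some e0) (by simpa using he)
            (he0 e (Finset.mem_univ _))
          omega
    omega

end Pool.Agent.E8helper34.Sep
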