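import Pool.Agent.E8helper34.Sep.Wt
import Pool.Agent.E8helper34.Sep.Hit

/-!
# Separating a depth-`r` minor

The one-step lemma: the vertex set of a depth-`r` minor `H` of a graph `G` of the class can be
divided evenly after removing few vertices so that only a fraction `1 / D` of the edges of `H` join
the two sides.
-/

set_option autoImplicit false

namespace Pool.Agent.E8helper34.Sep

open Finset

/-- `Q` is connected (seen from `c`): a set containing `c` and closed under adjacency in `Q`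
contains `Q`. -/
def Conn {V : Type} (G : SimpleGraph V) (c : V) (Q : Finset V) : Prop :=
  ∀ T : Set V, c ∈ T → (∀ a ∈ Q, a ∈ T → ∀ b ∈ Q, G.Adj a b → b ∈ T) → ∀ x ∈ Q, x ∈ T

lemma walk_closed {V : Type} {G : SimpleGraph V} {S : G.Subgraph} {a b : S.verts}
    (p : S.coe.Walk a b) (T : Set V) (ha : a.1 ∈ T)
    (hT : ∀ x ∈ p.support, x.1 ∈ T → ∀ y ∈ p.support, G.Adj x.1 y.1 → y.1 ∈ T) :
    ∀ x ∈ p.support, x.1 ∈ T := by
  induction p with
  | nil =>
    intro x hx
    rw [SimpleGraph.Walk.support_nil, List.mem_singleton] at hx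
    rw [hx]; exact ha
  | @cons u v w h p ih =>
    intro x hx
    rw [SimpleGraph.Walk.support_cons, List.mem_cons] at hx
    have hv : v.1 ∈ T := by
      refine hT u (by simp) ha v (by simp) ?_
      exact S.coe_adj_sub _ _ h
    rcases hx with rfl | hx
    · exact ha
    · refine ih hv ?_ x hx
      intro x hx hxT y hy hxy
      refine hT x ?_ hxT y ?_ hxy
      · rw [SimpleGraph.Walk.support_cons]; exact List.mem_cons_of_mem _ hx
      · rw [SimpleGraph.Walk.support_cons]; exact List.mem_cons_of_mem _ hy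

/-- The data of a minor model in terms of sets. -/
lemma model {V W : Type} {G : SimpleGraph V} {H : SimpleGraph W} {r : ℕ}
    (h : IsDepthMinor r H G) :
    ∃ (c : W → V) (S : W → Set V), (∀ u, c u ∈ S u) ∧ (∀ u v x, x ∈ S u → x ∈ S v → u = v) ∧
      ∀ p : W × W, ∃ Q₁ Q₂ : Finset V, H.Adj p.1 p.2 →
        Q₁.card ≤ r + 1 ∧ Q₂.card ≤ r + 1 ∧ (∀ y ∈ Q₁, y ∈ S p.1) ∧ (∀ y ∈ Q₂, y ∈ S p.2) ∧
        Conn G (c p.1) Q₁ ∧ Conn G (c p.2) Q₂ ∧ ∃ x ∈ Q₁, ∃ y ∈ Q₂, G.Adj x y := by
  classical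
  obtain ⟨S, hS, hd, hadj⟩ := h
  have hc : ∀ u, ∃ c : (S u).verts, (S u).coe.eccent c ≤ r := by
    intro u
    have := (hS u).1.nonempty
    obtain ⟨c, hc⟩ := (S u).coe.exists_eccent_eq_radius
    exact ⟨c, hc.le.trans (hS u).2⟩
  choose c hc using hc
  have hQ : ∀ u, ∀ x ∈ (S u).verts, ∃ Q : Finset V, Q.card ≤ r + 1 ∧ (∀ y ∈ Q, y ∈ (S u).verts) ∧
      x ∈ Q ∧ Conn G (c u).1 Q := by
    intro u x hx
    have h1 : (S u).coe.edist (c u) ⟨x, hx⟩ ≤ r :=
      SimpleGraph.edist_le_eccent.trans (hc u)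
    obtain ⟨p, hp⟩ := (hS u).1.exists_walk_length_eq_edist (c u) ⟨x, hx⟩
    rw [← hp] at h1
    have h2 : p.length ≤ r := by exact_mod_cast h1
    refine ⟨p.support.toFinset.map ⟨Subtype.val, Subtype.val_injective⟩, ?_, ?_, ?_, ?_⟩
    · rw [card_map]
      refine (List.toFinset_card_le _).trans ?_
      rw [SimpleGraph.Walk.length_support]
      omega
    · intro y hy
      rw [mem_map] at hy
      obtain ⟨z, _, rfl⟩ := hy
      exact z.2
    · rw [mem_map]
      exact ⟨⟨x, hx⟩, by simp, rfl⟩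
    · intro T hcT hT y hy
      rw [mem_map] at hy
      obtain ⟨z, hz, rfl⟩ := hy
      rw [List.mem_toFinset] at hz
      refine walk_closed p T hcT ?_ z hz
      intro a ha haT b hb hab
      refine hT a.1 ?_ haT b.1 ?_ hab
      · rw [mem_map]; exact ⟨a, by simpa using ha, rfl⟩
      · rw [mem_map]; exact ⟨b, by simpa using hb, rfl⟩
  refine ⟨fun u => (c u).1, fun u => (S u).verts, fun u => (c u).2, ?_, ?_⟩
  · intro u v x hu hv
    by_contra hne
    exact Set.disjoint_left.1 (hd u v hne) hu hv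
  · intro p
    by_cases hp : H.Adj p.1 p.2
    · obtain ⟨x, hx, y, hy, hxy⟩ := hadj _ _ hp
      obtain ⟨Q₁, h1, h2, h3, h4⟩ := hQ _ x hx
      obtain ⟨Q₂, h5, h6, h7, h8⟩ := hQ _ y hy
      exact ⟨Q₁, Q₂, fun _ => ⟨h1, h5, h2, h6, h4, h8, x, h3, y, h7, hxy⟩⟩
    · exact ⟨∅, ∅, fun h => absurd h hp⟩

/-- The pairs of adjacent vertices, the first in `A` and the second in `B`. -/
def ePairs {W : Type} (H : SimpleGraph W) (A B : Set W) : Set (W × W) :=
  {p | p.1 ∈ A ∧ p.2 ∈ B ∧ H.Adj p.1 p.2}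

/-- **One step.** -/
theorem one_step {V W : Type} [Finite V] [Finite W] {G : SimpleGraph V} {H : SimpleGraph W} {r : ℕ}
    (h : IsDepthMinor r H G) {K' δ : ℝ} (hK' : 0 ≤ K') (hδ1 : δ < 1)
    (hW : ∀ U M : Set V, ∃ X A B : Set V, IsSplit G U X A B ∧
      (X.ncard : ℝ) ≤ K' * (U.ncard : ℝ) ^ (1 - δ) ∧
      3 * (A ∩ M).ncard ≤ 2 * (U ∩ M).ncard ∧ 3 * (B ∩ M).ncard ≤ 2 * (U ∩ M).ncard)
    (U : Set W) (hU : 1 ≤ U.ncard) (D : ℕ) (hD : 1 ≤ D) :
    ∃ X A B : Set W, X ∪ (A ∪ B) = U ∧ Disjoint A B ∧ Disjoint X A ∧ Disjoint X B ∧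
      3 * A.ncard ≤ 2 * U.ncard ∧ 3 * B.ncard ≤ 2 * U.ncard ∧
      (X.ncard : ℝ) ≤ K' * (5 * ((r : ℝ) + 1) * D * U.ncard) ^ (1 - δ) ∧
      D * (ePairs H A B).ncard ≤ (ePairs H U U).ncard := by
  classical
  have := Fintype.ofFinite V
  have := Fintype.ofFinite W
  obtain ⟨c, S, hcS, hdis, hQ⟩ := model h
  choose Q₁ Q₂ hQ using hQ
  set E : Finset (W × W) := univ.filter fun p => p.1 ∈ U ∧ p.2 ∈ U ∧ H.Adj p.1 p.2 with hE
  have hEcard : (ePairs H U U).ncard = E.card := by
    rw [← Set.ncard_coe_finset]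
    congr 1
    ext p
    simp [ePairs, hE]
  set hs : (U → Fin 3) → Finset (W × W) := fun g =>
    E.filter fun p => ∃ (h1 : p.1 ∈ U) (h2 : p.2 ∈ U), g ⟨p.1, h1⟩ = 0 ∧ g ⟨p.2, h2⟩ = 1 with hhs
  -- the sparse hitting set
  have hF : ∃ F ⊆ E, F.card ≤ 2 * D * U.ncard ∧
      ∀ g, E.Nonempty → E.card ≤ D * (hs g).card → ¬ Disjoint F (hs g) := by
    rcases E.eq_empty_or_nonempty with h0 | h0
    · refine ⟨∅, empty_subset _, by simp, fun g hne => ?_⟩
      rw [h0] at hne
      exact absurd hne (by simp)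
    · obtain ⟨F, hFE, hFc, hF⟩ := hitting (ι := {g : U → Fin 3 // E.card ≤ D * (hs g).card}) E h0
        (fun g => hs g.1) (fun g => filter_subset _ _) D U.ncard hU hD (fun g => g.2) (by
          refine (Fintype.card_subtype_le _).trans ?_
          rw [Fintype.card_fun, Fintype.card_fin]
          have : Fintype.card U = U.ncard := by
            rw [← Nat.card_eq_fintype_card]; rfl
          rw [this])
      exact ⟨F, hFE, hFc, fun g _ hg => hF ⟨g, hg⟩⟩
  obtain ⟨F, hFE, hFc, hF⟩ := hF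
  have hFadj : ∀ p ∈ F, p.1 ∈ U ∧ p.2 ∈ U ∧ H.Adj p.1 p.2 := by
    intro p hp
    have := hFE hp
    rw [hE, mem_filter] at this
    exact this.2
  -- the vertices of the model of `F`
  set Z : Finset V := (U.toFinset.image c) ∪ F.biUnion fun p => Q₁ p ∪ Q₂ p with hZ
  have hZc : Z.card ≤ 5 * (r + 1) * D * U.ncard := by
    have h1 : (U.toFinset.image c).card ≤ U.ncard := by
      refine card_image_le.trans ?_
      rw [Set.ncard_eq_toFinset_card']
    have h2 : (F.biUnion fun p => Q₁ p ∪ Q₂ p).card ≤ F.card * (2 * (r + 1)) := by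
      apply card_biUnion_le_card_mul
      intro p hp
      obtain ⟨h1, h2, _⟩ := hQ p (hFadj p hp).2.2
      refine (card_union_le _ _).trans ?_
      omega
    have h3 : Z.card ≤ U.ncard + F.card * (2 * (r + 1)) :=
      (card_union_le _ _).trans (add_le_add h1 h2)
    have h4 : F.card * (2 * (r + 1)) ≤ 2 * D * U.ncard * (2 * (r + 1)) :=
      Nat.mul_le_mul_right _ hFc
    have h5 : U.ncard ≤ (r + 1) * D * U.ncard := by
      have : 1 ≤ (r + 1) * D := Nat.one_le_iff_ne_zero.2 (by positivity)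
      exact Nat.le_mul_of_pos_left _ (by omega)
    calc Z.card ≤ U.ncard + F.card * (2 * (r + 1)) := h3
      _ ≤ (r + 1) * D * U.ncard + 2 * D * U.ncard * (2 * (r + 1)) := add_le_add h5 h4
      _ = _ := by ring
  obtain ⟨X₀, A₀, B₀, hs0, hX0, hA0, hB0⟩ := hW (Z : Set V) (c '' U)
  have hcinj : ∀ u v, c u = c v → u = v := fun u v huv => hdis u v (c u) (hcS u) (huv ▸ hcS v)
  have hcU : (c '' U).ncard ≤ U.ncard := Set.ncard_image_le (Set.toFinite _)
  have hZU : ((Z : Set V) ∩ c '' U).ncard ≤ U.ncard :=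
    (Set.ncard_le_ncard Set.inter_subset_right (Set.toFinite _)).trans hcU
  set X : Set W := {u | u ∈ U ∧ ∃ x ∈ X₀, x ∈ S u} with hX
  set A : Set W := {u | u ∈ U ∧ u ∉ X ∧ c u ∈ A₀} with hA
  set B : Set W := {u | u ∈ U ∧ u ∉ X ∧ c u ∈ B₀} with hB
  have hcZ : ∀ u ∈ U, c u ∈ (Z : Set V) := by
    intro u hu
    rw [hZ]
    simp only [coe_union, Set.mem_union, mem_coe, mem_image, Set.mem_toFinset]
    exact Or.inl ⟨u, hu, rfl⟩
  have hsA : (A.ncard) ≤ (A₀ ∩ c '' U).ncard := by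
    rw [← Set.ncard_image_of_injective A (fun u v huv => hcinj u v huv)]
    apply Set.ncard_le_ncard _ (Set.toFinite _)
    rintro _ ⟨u, hu, rfl⟩
    exact ⟨hu.2.2, u, hu.1, rfl⟩
  have hsB : (B.ncard) ≤ (B₀ ∩ c '' U).ncard := by
    rw [← Set.ncard_image_of_injective B (fun u v huv => hcinj u v huv)]
    apply Set.ncard_le_ncard _ (Set.toFinite _)
    rintro _ ⟨u, hu, rfl⟩
    exact ⟨hu.2.2, u, hu.1, rfl⟩
  have hsX : X.ncard ≤ X₀.ncard := by
    have hch : ∀ u : X, ∃ x : X₀, x.1 ∈ S u.1 := by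
      rintro ⟨u, _, x, hx, hx'⟩
      exact ⟨⟨x, hx⟩, hx'⟩
    choose f hf using hch
    refine Nat.card_le_card_of_injective f ?_
    intro u v huv
    apply Subtype.ext
    exact hdis u.1 v.1 (f u).1 (hf u) (huv ▸ hf v)
  -- no pair of `F` joins `A` and `B`
  have hno : ∀ p ∈ F, p.1 ∈ A → p.2 ∈ B → False := by
    intro p hp hpA hpB
    obtain ⟨_, _, hadj⟩ := hFadj p hp
    obtain ⟨_, _, hs1, hs2, hc1, hc2, x, hx, y, hy, hxy⟩ := hQ p hadj
    have hQZ1 : ∀ y ∈ Q₁ p, y ∈ (Z : Set V) := by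
      intro y hy
      rw [hZ]
      simp only [coe_union, Set.mem_union, mem_coe, mem_biUnion, mem_union]
      exact Or.inr ⟨p, hp, Or.inl hy⟩
    have hQZ2 : ∀ y ∈ Q₂ p, y ∈ (Z : Set V) := by
      intro y hy
      rw [hZ]
      simp only [coe_union, Set.mem_union, mem_coe, mem_biUnion, mem_union]
      exact Or.inr ⟨p, hp, Or.inr hy⟩
    have hQA : ∀ x ∈ Q₁ p, x ∈ A₀ := by
      refine hc1 A₀ hpA.2.2 ?_
      intro a ha haA b hb hab
      have hbZ := hQZ1 b hb
      rw [← hs0.cover] at hbZ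
      rcases hbZ with hbX | hbA | hbB
      · exact absurd ⟨hpA.1, b, hbX, hs1 b hb⟩ hpA.2.1
      · exact hbA
      · exact absurd hab (hs0.noedge a haA b hbB)
    have hQB : ∀ x ∈ Q₂ p, x ∈ B₀ := by
      refine hc2 B₀ hpB.2.2 ?_
      intro a ha haB b hb hab
      have hbZ := hQZ2 b hb
      rw [← hs0.cover] at hbZ
      rcases hbZ with hbX | hbA | hbB
      · exact absurd ⟨hpB.1, b, hbX, hs2 b hb⟩ hpB.2.1
      · exact absurd hab.symm (hs0.noedge b hbA a haB)
      · exact hbB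
    exact hs0.noedge x (hQA x hx) y (hQB y hy) hxy
  have hAB : Disjoint A B := by
    rw [Set.disjoint_left]
    intro u hu hu'
    exact Set.disjoint_left.1 hs0.dAB hu.2.2 hu'.2.2
  refine ⟨X, A, B, ?_, hAB, ?_, ?_, by omega, by omega, ?_, ?_⟩
  · ext u
    simp only [Set.mem_union]
    constructor
    · rintro (h1 | h1 | h1)
      · exact h1.1
      · exact h1.1
      · exact h1.1
    · intro hu
      by_cases hx : u ∈ X
      · exact Or.inl hx
      · have hcu := hcZ u hu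
        rw [← hs0.cover] at hcu
        rcases hcu with h1 | h1 | h1
        · exact absurd ⟨hu, c u, h1, hcS u⟩ hx
        · exact Or.inr (Or.inl ⟨hu, hx, h1⟩)
        · exact Or.inr (Or.inr ⟨hu, hx, h1⟩)
  · rw [Set.disjoint_left]
    intro u hu hu'
    exact hu'.2.1 hu
  · rw [Set.disjoint_left]
    intro u hu hu'
    exact hu'.2.1 hu
  · have h1 : (X.ncard : ℝ) ≤ (X₀.ncard : ℝ) := by exact_mod_cast hsX
    refine h1.trans (hX0.trans (mul_le_mul_of_nonneg_left ?_ hK'))
    apply Real.rpow_le_rpow (Nat.cast_nonneg _) _ (by linarith)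
    rw [Set.ncard_coe_finset]
    exact_mod_cast hZc
  · rw [hEcard]
    rcases E.eq_empty_or_nonempty with h0 | h0
    · have : ePairs H A B = ∅ := by
        rw [Set.eq_empty_iff_forall_notMem]
        rintro p ⟨h1, h2, h3⟩
        have : p ∈ E := by
          rw [hE, mem_filter]
          exact ⟨mem_univ _, h1.1, h2.1, h3⟩
        rw [h0] at this
        simp at this
      rw [this]
      simp
    · set g : U → Fin 3 := fun u => if u.1 ∈ A then 0 else if u.1 ∈ B then 1 else 2 with hg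
      have hgA : ∀ u : U, g u = 0 ↔ u.1 ∈ A := by
        intro u
        rw [hg]
        simp only
        split_ifs with h1 h2
        · simp [h1]
        · simp [h1]
        · simp only [h1, iff_false]; decide
      have hgB : ∀ u : U, g u = 1 → u.1 ∈ B := by
        intro u
        rw [hg]
        simp only
        split_ifs with h1 h2
        · intro h; exact absurd h (by decide)
        · intro _; exact h2
        · intro h; exact absurd h (by decide)
      have hgB' : ∀ u : U, u.1 ∈ B → g u = 1 := by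
        intro u hu
        have h1 : u.1 ∉ A := fun h => Set.disjoint_left.1 hAB h hu
        rw [hg]
        simp only
        rw [if_neg h1, if_pos hu]
      have hhg : (ePairs H A B).ncard = (hs g).card := by
        rw [← Set.ncard_coe_finset]
        congr 1
        ext p
        simp only [ePairs, Set.mem_ofPred_eq, hhs, coe_filter, hE, mem_filter, mem_univ, true_and]
        constructor
        · rintro ⟨h1, h2, h3⟩
          exact ⟨⟨h1.1, h2.1, h3⟩, h1.1, h2.1, (hgA _).2 h1, hgB' _ h2⟩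
        · rintro ⟨⟨h1, h2, h3⟩, _, _, h4, h5⟩
          exact ⟨(hgA _).1 h4, hgB _ h5, h3⟩
      rw [hhg]
      by_contra hcon
      rw [not_le] at hcon
      refine hF g h0 hcon.le ?_
      rw [disjoint_left]
      intro p hp hpg
      rw [hhs, mem_filter] at hpg
      obtain ⟨_, h1, h2, h3, h4⟩ := hpg
      exact hno p hp ((hgA _).1 h3) (hgB _ h4)

end Pool.Agent.E8helper34.Sep
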