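import Pool.Agent.E8helper34.Sep.Model

/-!
# The upper bound: expansion `O(r ^ (1 / δ - 1))`
-/

set_option autoImplicit false

open Asymptotics Filter

namespace Pool.Agent.E8helper34.Sep

section Pairs

variable {W : Type} [Finite W] (H : SimpleGraph W)

lemma ePairs_le_sq (U : Set W) : (ePairs H U U).ncard ≤ U.ncard * U.ncard := by
  rw [← Set.ncard_prod]
  exact Set.ncard_le_ncard (fun p hp => ⟨hp.1, hp.2.1⟩) (Set.toFinite _)

lemma ePairs_swap (A B : Set W) : (ePairs H B A).ncard = (ePairs H A B).ncard := by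
  have : ePairs H B A = Prod.swap '' ePairs H A B := by
    ext ⟨x, y⟩
    constructor
    · rintro ⟨h1, h2, h3⟩
      exact ⟨(y, x), ⟨h2, h1, h3.symm⟩, rfl⟩
    · rintro ⟨⟨a, b⟩, ⟨h1, h2, h3⟩, h⟩
      simp only [Prod.swap_prod_mk, Prod.mk.injEq] at h
      obtain ⟨rfl, rfl⟩ := h
      exact ⟨h2, h1, h3.symm⟩
  rw [this, Set.ncard_image_of_injective _ Prod.swap_injective]

lemma ePairs_union (X A B : Set W) :
    (ePairs H (X ∪ (A ∪ B)) (X ∪ (A ∪ B))).ncard ≤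
      (ePairs H (A ∪ X) (A ∪ X)).ncard + (ePairs H (B ∪ X) (B ∪ X)).ncard +
        2 * (ePairs H A B).ncard := by
  have hsub : ePairs H (X ∪ (A ∪ B)) (X ∪ (A ∪ B)) ⊆
      (ePairs H (A ∪ X) (A ∪ X) ∪ ePairs H (B ∪ X) (B ∪ X)) ∪ (ePairs H A B ∪ ePairs H B A) := by
    rintro ⟨x, y⟩ ⟨h1, h2, h3⟩
    simp only [ePairs, Set.mem_union, Set.mem_ofPred_eq] at *
    tauto
  have h1 := Set.ncard_le_ncard hsub (Set.toFinite _)
  have h2 := Set.ncard_union_le (ePairs H (A ∪ X) (A ∪ X) ∪ ePairs H (B ∪ X) (B ∪ X))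
    (ePairs H A B ∪ ePairs H B A)
  have h3 := Set.ncard_union_le (ePairs H (A ∪ X) (A ∪ X)) (ePairs H (B ∪ X) (B ∪ X))
  have h4 := Set.ncard_union_le (ePairs H A B) (ePairs H B A)
  have h5 := ePairs_swap H A B
  omega

lemma two_edges_le : 2 * H.edgeSet.ncard ≤ (ePairs H Set.univ Set.univ).ncard := by
  classical
  have := Fintype.ofFinite W
  have h1 : H.edgeSet.ncard = H.edgeFinset.card := by
    rw [Set.ncard_eq_toFinset_card']
    rfl
  rw [h1, ← SimpleGraph.dart_card_eq_twice_card_edges, ← Nat.card_eq_fintype_card]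
  refine Nat.card_le_card_of_injective
    (fun d : H.Dart => (⟨d.toProd, ⟨trivial, trivial, d.adj⟩⟩ : ePairs H Set.univ Set.univ)) ?_
  intro d d' h
  exact SimpleGraph.Dart.ext _ _ (congrArg Subtype.val h)

end Pairs

/-- The parameters of the recursion. -/
lemma params {δ : ℝ} (h0 : 0 < δ) (h1 : δ < 1) :
    0 < (4 / 3 : ℝ) ^ (δ / 2) - 1 ∧ (4 / 3 : ℝ) ^ (δ / 2) - 1 ≤ 1 / 3 ∧
    0 < 1 / (2 * (3 : ℝ) ^ (δ / 2)) ∧ 1 / (2 * (3 : ℝ) ^ (δ / 2)) ≤ 1 / 2 := by
  have a1 : 1 < (4 / 3 : ℝ) ^ (δ / 2) := Real.one_lt_rpow (by norm_num) (by linarith)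
  have a2 : (4 / 3 : ℝ) ^ (δ / 2) ≤ (4 / 3 : ℝ) ^ (1 : ℝ) :=
    Real.rpow_le_rpow_of_exponent_le (by norm_num) (by linarith)
  rw [Real.rpow_one] at a2
  have a3 : 1 ≤ (3 : ℝ) ^ (δ / 2) := Real.one_le_rpow (by norm_num) (by linarith)
  refine ⟨by linarith, by linarith, by positivity, ?_⟩
  apply one_div_le_one_div_of_le (by norm_num)
  linarith

/-- The size condition of the recursion. -/
lemma size_cond {δ K' R c α N₁ : ℝ} (h0 : 0 < δ) (h1 : δ < 1) (hK' : 0 < K') (hR : 0 < R)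
    (hc : 0 < c) (hα : 0 < α)
    (hN₁ : N₁ = (2 * K' * (5 * R * (4 / (c * α) + 1)) ^ (1 - δ) / (c * α)) ^ (1 / δ))
    (N : ℝ) (hN : N₁ ≤ N) :
    K' * (5 * R * (⌈4 / (c * (α * (N₁ / N) ^ (δ / 2)))⌉₊ : ℝ) * N) ^ (1 - δ) ≤
      c * (α * (N₁ / N) ^ (δ / 2)) / 2 * N := by
  set C₁ := 4 / (c * α) + 1 with hC₁
  have hC₁0 : 0 < C₁ := by positivity
  set Y := 2 * K' * (5 * R * C₁) ^ (1 - δ) / (c * α) with hY
  have hY0 : 0 < Y := by positivity
  have hN₁0 : 0 < N₁ := by rw [hN₁]; positivity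
  have hN₁δ : N₁ ^ δ = Y := by
    rw [hN₁, ← Real.rpow_mul hY0.le]
    simp [h0.ne']
  obtain ⟨t, ht⟩ : ∃ t, t = N / N₁ := ⟨_, rfl⟩
  have ht1 : 1 ≤ t := by rw [ht, one_le_div hN₁0]; exact hN
  have ht0 : 0 < t := by linarith
  have hNt : N = t * N₁ := by rw [ht]; field_simp
  have hinv : (N₁ / N) ^ (δ / 2) = (t ^ (δ / 2))⁻¹ := by
    rw [← Real.inv_rpow ht0.le, ht, inv_div]
  set τ := t ^ (δ / 2) with hτ
  have hτ0 : 0 < τ := by positivity
  have hτ1 : 1 ≤ τ := Real.one_le_rpow ht1 (by linarith)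
  rw [hinv]
  have hD : (⌈4 / (c * (α * τ⁻¹))⌉₊ : ℝ) ≤ C₁ * τ := by
    have e1 : 4 / (c * (α * τ⁻¹)) = 4 / (c * α) * τ := by field_simp
    have e2 : (⌈4 / (c * (α * τ⁻¹))⌉₊ : ℝ) < 4 / (c * (α * τ⁻¹)) + 1 :=
      Nat.ceil_lt_add_one (by positivity)
    rw [e1] at e2
    rw [e1, hC₁, add_mul, one_mul]
    linarith
  calc K' * (5 * R * (⌈4 / (c * (α * τ⁻¹))⌉₊ : ℝ) * N) ^ (1 - δ)
      ≤ K' * (5 * R * (C₁ * τ) * N) ^ (1 - δ) := by
        apply mul_le_mul_of_nonneg_left _ hK'.le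
        apply Real.rpow_le_rpow _ _ (by linarith)
        · have : 0 ≤ N := by linarith
          positivity
        · have : 0 ≤ N := by linarith
          gcongr
    _ = K' * ((5 * R * C₁) ^ (1 - δ) * (τ * t * N₁) ^ (1 - δ)) := by
        rw [← Real.mul_rpow (by positivity) (by positivity), hNt]
        congr 2
        ring
    _ = (c * α / 2) * (Y * (τ * t * N₁) ^ (1 - δ)) := by
        rw [hY]
        field_simp
    _ = (c * α / 2) * (N₁ * (τ * t) ^ (1 - δ)) := by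
        rw [← hN₁δ, Real.mul_rpow (by positivity) hN₁0.le]
        have : N₁ ^ δ * N₁ ^ (1 - δ) = N₁ := by
          rw [← Real.rpow_add hN₁0]
          simp
        calc (c * α / 2) * (N₁ ^ δ * ((τ * t) ^ (1 - δ) * N₁ ^ (1 - δ)))
            = (c * α / 2) * ((N₁ ^ δ * N₁ ^ (1 - δ)) * (τ * t) ^ (1 - δ)) := by ring
          _ = _ := by rw [this]
    _ ≤ (c * α / 2) * (N₁ * (τ⁻¹ * t)) := by
        apply mul_le_mul_of_nonneg_left _ (by positivity)
        apply mul_le_mul_of_nonneg_left _ hN₁0.le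
        have e1 : (τ * t) ^ (1 - δ) = t ^ ((δ / 2 + 1) * (1 - δ)) := by
          rw [Real.rpow_mul ht0.le, Real.rpow_add ht0, Real.rpow_one]
        have e2 : τ⁻¹ * t = t ^ (1 - δ / 2) := by
          rw [Real.rpow_sub ht0, Real.rpow_one, hτ]
          field_simp
        rw [e1, e2]
        apply Real.rpow_le_rpow_of_exponent_le ht1
        nlinarith
    _ = c * (α * τ⁻¹) / 2 * N := by
        rw [hNt]
        ring

/-- The recursion. -/
theorem recursion {W : Type} [Finite W] {H : SimpleGraph W} {δ K' R N₁ : ℝ} (h0 : 0 < δ)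
    (h1 : δ < 1) (hN₁ : 0 < N₁)
    (hstep : ∀ U : Set W, 1 ≤ U.ncard → ∀ D : ℕ, 1 ≤ D → ∃ X A B : Set W, X ∪ (A ∪ B) = U ∧
      Disjoint A B ∧ Disjoint X A ∧ Disjoint X B ∧
      3 * A.ncard ≤ 2 * U.ncard ∧ 3 * B.ncard ≤ 2 * U.ncard ∧
      (X.ncard : ℝ) ≤ K' * (5 * R * D * U.ncard) ^ (1 - δ) ∧
      D * (ePairs H A B).ncard ≤ (ePairs H U U).ncard)
    (hsize : ∀ N : ℝ, N₁ ≤ N →
      K' * (5 * R * (⌈4 / (((4 / 3 : ℝ) ^ (δ / 2) - 1) *
        (1 / (2 * (3 : ℝ) ^ (δ / 2)) * (N₁ / N) ^ (δ / 2)))⌉₊ : ℝ) * N) ^ (1 - δ) ≤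
      ((4 / 3 : ℝ) ^ (δ / 2) - 1) * (1 / (2 * (3 : ℝ) ^ (δ / 2)) * (N₁ / N) ^ (δ / 2)) / 2 * N)
    (n : ℕ) : ∀ U : Set W, U.ncard = n → N₁ / 3 ≤ n →
      ((ePairs H U U).ncard : ℝ) ≤ 2 * N₁ * (n * (1 - 1 / (2 * (3 : ℝ) ^ (δ / 2)) *
        (N₁ / n) ^ (δ / 2))) := by
  obtain ⟨hc0, hc1, hα0, hα1⟩ := params h0 h1
  set c := (4 / 3 : ℝ) ^ (δ / 2) - 1 with hc
  set α := 1 / (2 * (3 : ℝ) ^ (δ / 2)) with hα
  induction n using Nat.strong_induction_on with
  | _ n ih =>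
  intro U hU hn
  have hn0 : (0 : ℝ) < n := by linarith [div_pos hN₁ (by norm_num : (0:ℝ) < 3)]
  by_cases hcase : (n : ℝ) ≤ N₁
  · have e1 : ((ePairs H U U).ncard : ℝ) ≤ (n : ℝ) * n := by
      have := ePairs_le_sq H U
      rw [hU] at this
      exact_mod_cast this
    have e2 : (N₁ / n) ^ (δ / 2) ≤ (3 : ℝ) ^ (δ / 2) := by
      apply Real.rpow_le_rpow (by positivity) _ (by linarith)
      rw [div_le_iff₀ hn0]
      linarith
    have e3 : α * (N₁ / n) ^ (δ / 2) ≤ 1 / 2 := by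
      calc α * (N₁ / n) ^ (δ / 2) ≤ α * (3 : ℝ) ^ (δ / 2) := mul_le_mul_of_nonneg_left e2 hα0.le
        _ = 1 / 2 := by rw [hα]; field_simp
    calc ((ePairs H U U).ncard : ℝ) ≤ (n : ℝ) * n := e1
      _ ≤ N₁ * n := mul_le_mul_of_nonneg_right hcase hn0.le
      _ = 2 * N₁ * (n * (1 - 1 / 2)) := by ring
      _ ≤ _ := by
          apply mul_le_mul_of_nonneg_left _ (by linarith)
          apply mul_le_mul_of_nonneg_left _ hn0.le
          linarith
  · rw [not_le] at hcase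
    have hn1 : 1 ≤ n := by exact_mod_cast hn0
    set s := α * (N₁ / n) ^ (δ / 2) with hs
    have hq1 : (N₁ / n) ^ (δ / 2) ≤ 1 := by
      apply Real.rpow_le_one (by positivity) _ (by linarith)
      rw [div_le_one hn0]
      exact hcase.le
    have hq0 : 0 < (N₁ / n) ^ (δ / 2) := Real.rpow_pos_of_pos (div_pos hN₁ hn0) _
    have hs0 : 0 < s := mul_pos hα0 hq0
    have hs1 : s ≤ 1 / 2 := by
      calc s ≤ α * 1 := mul_le_mul_of_nonneg_left hq1 hα0.le
        _ ≤ 1 / 2 := by linarith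
    set D := ⌈4 / (c * s)⌉₊ with hD
    have hcs : 0 < c * s := mul_pos hc0 hs0
    have hD1 : 1 ≤ D := Nat.one_le_ceil_iff.2 (by positivity)
    have hDge : 4 / (c * s) ≤ (D : ℝ) := Nat.le_ceil _
    obtain ⟨X, A, B, hcov, hAB, hXA, hXB, hA, hB, hX, hE⟩ := hstep U (by omega) D hD1
    have hx : (X.ncard : ℝ) ≤ c * s / 2 * n := by
      have := hsize n hcase.le
      rw [hU] at hX
      exact hX.trans this
    have hcsle : c * s ≤ 1 / 6 := by
      calc c * s ≤ 1 / 3 * (1 / 2) := mul_le_mul hc1 hs1 hs0.le (by norm_num)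
        _ = 1 / 6 := by norm_num
    -- sizes
    have hAX : (A ∪ X).ncard = A.ncard + X.ncard :=
      Set.ncard_union_eq hXA.symm (Set.toFinite _) (Set.toFinite _)
    have hBX : (B ∪ X).ncard = B.ncard + X.ncard :=
      Set.ncard_union_eq hXB.symm (Set.toFinite _) (Set.toFinite _)
    have hsum : X.ncard + (A.ncard + B.ncard) = n := by
      rw [← hU, ← hcov, Set.ncard_union_eq (Set.disjoint_union_right.2 ⟨hXA, hXB⟩)
        (Set.toFinite _) (Set.toFinite _), Set.ncard_union_eq hAB (Set.toFinite _) (Set.toFinite _)]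
    rw [hU] at hA hB
    have hsumR : (X.ncard : ℝ) + ((A.ncard : ℝ) + (B.ncard : ℝ)) = n := by exact_mod_cast hsum
    have hAR : 3 * (A.ncard : ℝ) ≤ 2 * n := by exact_mod_cast hA
    have hBR : 3 * (B.ncard : ℝ) ≤ 2 * n := by exact_mod_cast hB
    have hx12 : (X.ncard : ℝ) ≤ 1 / 12 * n := by
      refine hx.trans (mul_le_mul_of_nonneg_right ?_ hn0.le)
      linarith
    -- induction for the two sides
    have side : ∀ A : Set W, (A.ncard : ℝ) ≤ 3 / 4 * n → (1 / 3 : ℝ) * n ≤ A.ncard →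
        ((ePairs H A A).ncard : ℝ) ≤ 2 * N₁ * (A.ncard * (1 - (1 + c) * s)) := by
      intro A hA1 hA2
      have hA0 : (0 : ℝ) < A.ncard := by linarith [mul_pos (by norm_num : (0:ℝ) < 1 / 3) hn0]
      have hlt : A.ncard < n := by
        have : (A.ncard : ℝ) < n := by linarith
        exact_mod_cast this
      refine (ih A.ncard hlt A rfl (by linarith)).trans ?_
      apply mul_le_mul_of_nonneg_left _ (by linarith)
      apply mul_le_mul_of_nonneg_left _ hA0.le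
      have e1 : (1 + c) * s ≤ α * (N₁ / A.ncard) ^ (δ / 2) := by
        have e2 : (4 / 3 : ℝ) ^ (δ / 2) * (N₁ / n) ^ (δ / 2) ≤ (N₁ / A.ncard) ^ (δ / 2) := by
          rw [← Real.mul_rpow (by norm_num) (by positivity)]
          apply Real.rpow_le_rpow (by positivity) _ (by linarith)
          rw [le_div_iff₀ hA0]
          calc 4 / 3 * (N₁ / n) * (A.ncard : ℝ) ≤ 4 / 3 * (N₁ / n) * (3 / 4 * n) :=
                mul_le_mul_of_nonneg_left hA1 (by positivity)
            _ = N₁ := by field_simp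
        have e3 : 1 + c = (4 / 3 : ℝ) ^ (δ / 2) := by rw [hc]; ring
        calc (1 + c) * s = α * ((4 / 3 : ℝ) ^ (δ / 2) * (N₁ / n) ^ (δ / 2)) := by
              rw [e3, hs]; ring
          _ ≤ _ := mul_le_mul_of_nonneg_left e2 hα0.le
      linarith
    have hSA := side (A ∪ X) (by rw [hAX]; push_cast; linarith) (by rw [hAX]; push_cast; linarith)
    have hSB := side (B ∪ X) (by rw [hBX]; push_cast; linarith) (by rw [hBX]; push_cast; linarith)
    rw [hAX] at hSA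
    rw [hBX] at hSB
    push_cast at hSA hSB
    have hun : ((ePairs H U U).ncard : ℝ) ≤ ((ePairs H (A ∪ X) (A ∪ X)).ncard : ℝ) +
        ((ePairs H (B ∪ X) (B ∪ X)).ncard : ℝ) + 2 * ((ePairs H A B).ncard : ℝ) := by
      have := ePairs_union H X A B
      rw [hcov] at this
      exact_mod_cast this
    have hER : (D : ℝ) * ((ePairs H A B).ncard : ℝ) ≤ ((ePairs H U U).ncard : ℝ) := by
      exact_mod_cast hE
    set e := ((ePairs H U U).ncard : ℝ) with he
    have he0 : 0 ≤ e := Nat.cast_nonneg _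
    have hh0 : (0 : ℝ) ≤ ((ePairs H A B).ncard : ℝ) := Nat.cast_nonneg _
    have hh : ((ePairs H A B).ncard : ℝ) ≤ c * s / 4 * e := by
      have e1 : 4 / (c * s) * ((ePairs H A B).ncard : ℝ) ≤ e :=
        (mul_le_mul_of_nonneg_right hDge hh0).trans hER
      calc ((ePairs H A B).ncard : ℝ) = c * s / 4 * (4 / (c * s) * ((ePairs H A B).ncard : ℝ)) := by
            field_simp
        _ ≤ _ := mul_le_mul_of_nonneg_left e1 (by positivity)
    set x := (X.ncard : ℝ) with hxdef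
    have hx0 : 0 ≤ x := Nat.cast_nonneg _
    -- conclusion
    have k1 : e * (1 - c * s / 2) ≤ 2 * N₁ * ((n + x) * (1 - (1 + c) * s)) := by
      have e1 : 2 * N₁ * (((A.ncard : ℝ) + x) * (1 - (1 + c) * s)) +
          2 * N₁ * (((B.ncard : ℝ) + x) * (1 - (1 + c) * s)) =
          2 * N₁ * ((n + x) * (1 - (1 + c) * s)) := by
        rw [← hsumR]; ring
      linarith
    have k2 : 0 ≤ 1 - (1 + c) * s := by
      have : (1 + c) * s = s + c * s := by ring
      linarith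
    have k3 : (n + x) * (1 - (1 + c) * s) ≤ n * (1 + c * s / 2) * (1 - (1 + c) * s) := by
      apply mul_le_mul_of_nonneg_right _ k2
      linarith
    have k4 : (n : ℝ) * (1 + c * s / 2) * (1 - (1 + c) * s) ≤ n * (1 - s) * (1 - c * s / 2) := by
      have e1 : (1 - s) * (1 - c * s / 2) - (1 + c * s / 2) * (1 - (1 + c) * s) =
          c * s * s + (c * s) * (c * s) / 2 := by ring
      have e2 : (1 + c * s / 2) * (1 - (1 + c) * s) ≤ (1 - s) * (1 - c * s / 2) := by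
        have := mul_pos hcs hs0
        have := mul_pos hcs hcs
        linarith
      calc (n : ℝ) * (1 + c * s / 2) * (1 - (1 + c) * s)
          = (n : ℝ) * ((1 + c * s / 2) * (1 - (1 + c) * s)) := by ring
        _ ≤ (n : ℝ) * ((1 - s) * (1 - c * s / 2)) := mul_le_mul_of_nonneg_left e2 hn0.le
        _ = _ := by ring
    have k5 : 0 < 1 - c * s / 2 := by linarith
    have k6 : e * (1 - c * s / 2) ≤ (2 * N₁ * (n * (1 - s))) * (1 - c * s / 2) := by
      calc e * (1 - c * s / 2) ≤ 2 * N₁ * ((n + x) * (1 - (1 + c) * s)) := k1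
        _ ≤ 2 * N₁ * (n * (1 - s) * (1 - c * s / 2)) :=
            mul_le_mul_of_nonneg_left (k3.trans k4) (by linarith)
        _ = _ := by ring
    exact le_of_mul_le_mul_right k6 k5

end Pool.Agent.E8helper34.Sep
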