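import Pool.Agent.E8helper34.Sep.Defs

/-!
# Weighted separations in monotone classes with small balanced separators
-/

set_option autoImplicit false

namespace Pool.Agent.E8helper34.Sep

/-- A separator whose components are small gives a two-sided separation with small sides. -/
lemma split_of_balanced {V : Type} [Finite V] (G : SimpleGraph V) (S : Set V)
    (h : IsBalancedSeparator G S) :
    ∃ A B : Set V, A ∪ B = Sᶜ ∧ Disjoint A B ∧ (∀ a ∈ A, ∀ b ∈ B, ¬ G.Adj a b) ∧
      3 * A.ncard ≤ 2 * Nat.card V ∧ 3 * B.ncard ≤ 2 * Nat.card V := by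
  classical
  set F : Set (Set V) := {A | A ⊆ Sᶜ ∧ (∀ a ∈ A, ∀ b ∈ Sᶜ, G.Adj a b → b ∈ A) ∧
    3 * A.ncard ≤ 2 * Nat.card V} with hF
  obtain ⟨A, hA, hmax⟩ := Set.exists_max_image F Set.ncard (Set.toFinite _)
    ⟨∅, by simp [hF]⟩
  obtain ⟨hAS, hAc, hAn⟩ := hA
  refine ⟨A, Sᶜ \ A, Set.union_sdiff_cancel hAS, Set.disjoint_sdiff_right, ?_, hAn, ?_⟩
  · rintro a ha b ⟨hb, hbA⟩ hab
    exact hbA (hAc a ha b hb hab)
  · by_contra hcon
    rw [not_le] at hcon
    have h1 : A.ncard + (Sᶜ \ A).ncard ≤ Nat.card V := by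
      rw [← Set.ncard_union_eq Set.disjoint_sdiff_right (Set.toFinite _) (Set.toFinite _),
        ← Set.ncard_univ]
      exact Set.ncard_le_ncard (Set.subset_univ _) (Set.toFinite _)
    have h2 : (Sᶜ \ A).Nonempty := by
      rw [← Set.ncard_pos (Set.toFinite _)]
      omega
    obtain ⟨b, hbS, hbA⟩ := h2
    set c := (G.induce Sᶜ).connectedComponentMk ⟨b, hbS⟩ with hc
    set D : Set V := Subtype.val '' c.supp with hD
    have hDn : D.ncard = c.supp.ncard := Set.ncard_image_of_injective _ Subtype.val_injective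
    have hDb : b ∈ D := ⟨⟨b, hbS⟩, rfl, rfl⟩
    have hDS : D ⊆ Sᶜ := by
      rintro _ ⟨v, _, rfl⟩
      exact v.2
    have hDc : ∀ a ∈ D, ∀ b ∈ Sᶜ, G.Adj a b → b ∈ D := by
      rintro _ ⟨v, hv, rfl⟩ w hw hvw
      refine ⟨⟨w, hw⟩, ?_, rfl⟩
      have hadj : (G.induce Sᶜ).Adj ⟨w, hw⟩ v := hvw.symm
      rw [SimpleGraph.ConnectedComponent.mem_supp_iff] at hv ⊢
      rw [← hv]
      exact SimpleGraph.ConnectedComponent.sound hadj.reachable
    have hDle : 3 * D.ncard ≤ 2 * Nat.card V := by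
      rw [hDn]
      exact h c
    have h3 := hmax D ⟨hDS, hDc, hDle⟩
    have h4 : A.ncard < (A ∪ D).ncard := by
      apply Set.ncard_lt_ncard _ (Set.toFinite _)
      rw [Set.ssubset_iff_of_subset Set.subset_union_left]
      exact ⟨b, Or.inr hDb, hbA⟩
    have h5 : 2 * Nat.card V < 3 * (A ∪ D).ncard := by
      by_contra h6
      rw [not_lt] at h6
      have := hmax (A ∪ D) ⟨Set.union_subset hAS hDS, ?_, h6⟩
      · omega
      · rintro a (ha | ha) w hw haw
        · exact Or.inl (hAc a ha w hw haw)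
        · exact Or.inr (hDc a ha w hw haw)
    have h6 := Set.ncard_union_le A D
    omega

/-- A separation of the set `U` of vertices. -/
structure IsSplit {V : Type} (G : SimpleGraph V) (U X A B : Set V) : Prop where
  cover : X ∪ (A ∪ B) = U
  dXA : Disjoint X A
  dXB : Disjoint X B
  dAB : Disjoint A B
  noedge : ∀ a ∈ A, ∀ b ∈ B, ¬ G.Adj a b

section

variable {V : Type} {G : SimpleGraph V} {U X A B X' A' B' : Set V}

lemma IsSplit.symm (h : IsSplit G U X A B) : IsSplit G U X B A where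
  cover := by rw [Set.union_comm B A]; exact h.cover
  dXA := h.dXB
  dXB := h.dXA
  dAB := h.dAB.symm
  noedge := fun a ha b hb hab => h.noedge b hb a ha hab.symm

lemma IsSplit.sub_left (h : IsSplit G U X A B) : A ⊆ U := by
  rw [← h.cover]
  exact fun x hx => Or.inr (Or.inl hx)

lemma IsSplit.sub_right (h : IsSplit G U X A B) : B ⊆ U := h.symm.sub_left

lemma IsSplit.sub_sep (h : IsSplit G U X A B) : X ⊆ U := by
  rw [← h.cover]
  exact fun x hx => Or.inl hx

lemma IsSplit.combine (h : IsSplit G U X A B) (h' : IsSplit G A X' A' B') :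
    IsSplit G U (X ∪ X') A' (B' ∪ B) where
  cover := by
    rw [← h.cover, ← h'.cover]
    ext x
    simp only [Set.mem_union]
    tauto
  dXA := by
    rw [Set.disjoint_union_left]
    exact ⟨h.dXA.mono_right h'.sub_left, h'.dXA⟩
  dXB := by
    rw [Set.disjoint_union_left, Set.disjoint_union_right, Set.disjoint_union_right]
    exact ⟨⟨h.dXA.mono_right h'.sub_right, h.dXB⟩, h'.dXB, h.dAB.mono_left h'.sub_sep⟩
  dAB := by
    rw [Set.disjoint_union_right]
    exact ⟨h'.dAB, h.dAB.mono_left h'.sub_left⟩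
  noedge := by
    rintro a ha b (hb | hb)
    · exact h'.noedge a ha b hb
    · exact h.noedge a (h'.sub_left ha) b hb

lemma IsSplit.count [Finite V] (h : IsSplit G U X A B) (M : Set V) :
    (A ∩ M).ncard + (B ∩ M).ncard ≤ (U ∩ M).ncard := by
  rw [← Set.ncard_union_eq ?_ (Set.toFinite _) (Set.toFinite _)]
  · apply Set.ncard_le_ncard _ (Set.toFinite _)
    rintro x (hx | hx)
    · exact ⟨h.sub_left hx.1, hx.2⟩
    · exact ⟨h.sub_right hx.1, hx.2⟩
  · exact h.dAB.mono Set.inter_subset_left Set.inter_subset_left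

end

section

variable {C : GraphClass} {δ K : ℝ}

/-- Unweighted separations of the sets of vertices of a graph of the class. -/
lemma unweighted (hC : C.Monotone)
    (hK : ∀ (V : Type) [Finite V] (G : SimpleGraph V), C V G →
      ∃ S : Set V, IsBalancedSeparator G S ∧ (S.ncard : ℝ) ≤ K * (Nat.card V : ℝ) ^ (1 - δ))
    {V : Type} [Finite V] {G : SimpleGraph V} (hG : C V G) (U : Set V) :
    ∃ X A B : Set V, IsSplit G U X A B ∧ (X.ncard : ℝ) ≤ K * (U.ncard : ℝ) ^ (1 - δ) ∧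
      3 * A.ncard ≤ 2 * U.ncard ∧ 3 * B.ncard ≤ 2 * U.ncard := by
  have hGU : C U (G.induce U) :=
    hC V U G (G.induce U) ⟨SimpleGraph.Copy.induce G U⟩ hG
  obtain ⟨S, hS, hSn⟩ := hK U (G.induce U) hGU
  obtain ⟨A, B, hAB, hd, hne, hA, hB⟩ := split_of_balanced _ S hS
  have hinj : Function.Injective (Subtype.val : U → V) := Subtype.val_injective
  have hcard : Nat.card U = U.ncard := rfl
  have hdS : Disjoint S A ∧ Disjoint S B := by
    constructor
    · rw [Set.disjoint_right]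
      intro x hx
      have : x ∈ Sᶜ := by rw [← hAB]; exact Or.inl hx
      exact this
    · rw [Set.disjoint_right]
      intro x hx
      have : x ∈ Sᶜ := by rw [← hAB]; exact Or.inr hx
      exact this
  refine ⟨Subtype.val '' S, Subtype.val '' A, Subtype.val '' B, ⟨?_, ?_, ?_, ?_, ?_⟩, ?_, ?_, ?_⟩
  · rw [← Set.image_union, ← Set.image_union, hAB, Set.union_compl_self, Set.image_univ,
      Subtype.range_coe]
  · exact (Set.disjoint_image_iff hinj).2 hdS.1
  · exact (Set.disjoint_image_iff hinj).2 hdS.2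
  · exact (Set.disjoint_image_iff hinj).2 hd
  · rintro _ ⟨a, ha, rfl⟩ _ ⟨b, hb, rfl⟩ hab
    exact hne a ha b hb hab
  · rw [Set.ncard_image_of_injective _ hinj]
    exact hSn
  · rw [Set.ncard_image_of_injective _ hinj]
    exact hA
  · rw [Set.ncard_image_of_injective _ hinj]
    exact hB

/-- Weighted separations. -/
theorem weighted (hC : C.Monotone) (hδ0 : 0 < δ) (hδ1 : δ < 1) (hK0 : 0 ≤ K)
    (hK : ∀ (V : Type) [Finite V] (G : SimpleGraph V), C V G →
      ∃ S : Set V, IsBalancedSeparator G S ∧ (S.ncard : ℝ) ≤ K * (Nat.card V : ℝ) ^ (1 - δ))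
    {V : Type} [Finite V] {G : SimpleGraph V} (hG : C V G) (M : Set V) (n : ℕ) :
    ∀ U : Set V, U.ncard = n →
    ∃ X A B : Set V, IsSplit G U X A B ∧
      (X.ncard : ℝ) ≤ K / (1 - (2 / 3 : ℝ) ^ (1 - δ)) * (U.ncard : ℝ) ^ (1 - δ) ∧
      3 * (A ∩ M).ncard ≤ 2 * (U ∩ M).ncard ∧ 3 * (B ∩ M).ncard ≤ 2 * (U ∩ M).ncard := by
  have hθ1 : (2 / 3 : ℝ) ^ (1 - δ) < 1 := Real.rpow_lt_one (by norm_num) (by norm_num) (by linarith)
  have hθ0 : 0 ≤ (2 / 3 : ℝ) ^ (1 - δ) := Real.rpow_nonneg (by norm_num) _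
  set θ := (2 / 3 : ℝ) ^ (1 - δ) with hθ
  set K' := K / (1 - θ) with hK'
  have hne : 1 - θ ≠ 0 := by
    have : 0 < 1 - θ := by linarith
    exact this.ne'
  have hKK : K + K' * θ = K' := by
    rw [hK']
    field_simp
    ring
  have hK'0 : 0 ≤ K' := div_nonneg hK0 (by linarith)
  have hKle : K ≤ K' := by
    have := mul_nonneg hK'0 hθ0
    linarith
  induction n using Nat.strong_induction_on with
  | _ n ih =>
  intro U hU
  obtain ⟨S, A, B, hs, hSn, hA, hB⟩ := unweighted hC hK hG U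
  have hUpow : 0 ≤ (U.ncard : ℝ) ^ (1 - δ) := Real.rpow_nonneg (Nat.cast_nonneg _) _
  -- the case of a heavy side
  have heavy : ∀ A B : Set V, IsSplit G U S A B → 3 * A.ncard ≤ 2 * U.ncard →
      2 * (U ∩ M).ncard < 3 * (A ∩ M).ncard →
      ∃ X A B : Set V, IsSplit G U X A B ∧ (X.ncard : ℝ) ≤ K' * (U.ncard : ℝ) ^ (1 - δ) ∧
        3 * (A ∩ M).ncard ≤ 2 * (U ∩ M).ncard ∧ 3 * (B ∩ M).ncard ≤ 2 * (U ∩ M).ncard := by
    intro A B hs hA hh
    have hAM : (A ∩ M).ncard ≤ A.ncard := Set.ncard_le_ncard Set.inter_subset_left (Set.toFinite _)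
    obtain ⟨X', A', B', hs', hX', hA', hB'⟩ := ih A.ncard (by omega) A rfl
    have hcount := hs.count M
    have hcount' := hs'.count M
    have hX : ((S ∪ X').ncard : ℝ) ≤ K' * (U.ncard : ℝ) ^ (1 - δ) := by
      have h1 : ((S ∪ X').ncard : ℝ) ≤ (S.ncard : ℝ) + (X'.ncard : ℝ) := by
        exact_mod_cast Set.ncard_union_le S X'
      have h2 : (A.ncard : ℝ) ≤ 2 / 3 * (U.ncard : ℝ) := by
        have : (3 : ℝ) * (A.ncard : ℝ) ≤ 2 * (U.ncard : ℝ) := by exact_mod_cast hA
        linarith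
      have h3 : (A.ncard : ℝ) ^ (1 - δ) ≤ θ * (U.ncard : ℝ) ^ (1 - δ) := by
        rw [hθ, ← Real.mul_rpow (by norm_num) (Nat.cast_nonneg _)]
        exact Real.rpow_le_rpow (Nat.cast_nonneg _) h2 (by linarith)
      calc ((S ∪ X').ncard : ℝ) ≤ (S.ncard : ℝ) + (X'.ncard : ℝ) := h1
        _ ≤ K * (U.ncard : ℝ) ^ (1 - δ) + K' * (θ * (U.ncard : ℝ) ^ (1 - δ)) :=
            add_le_add hSn (hX'.trans (mul_le_mul_of_nonneg_left h3 hK'0))
        _ = (K + K' * θ) * (U.ncard : ℝ) ^ (1 - δ) := by ring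
        _ = _ := by rw [hKK]
    rcases le_total (B' ∩ M).ncard (A' ∩ M).ncard with hc | hc
    · refine ⟨S ∪ X', A', B' ∪ B, hs.combine hs', hX, by omega, ?_⟩
      have : ((B' ∪ B) ∩ M).ncard ≤ (B' ∩ M).ncard + (B ∩ M).ncard := by
        rw [Set.union_inter_distrib_right]
        exact Set.ncard_union_le _ _
      omega
    · refine ⟨S ∪ X', B', A' ∪ B, hs.combine hs'.symm, hX, by omega, ?_⟩
      have : ((A' ∪ B) ∩ M).ncard ≤ (A' ∩ M).ncard + (B ∩ M).ncard := by
        rw [Set.union_inter_distrib_right]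
        exact Set.ncard_union_le _ _
      omega
  by_cases hA' : 3 * (A ∩ M).ncard ≤ 2 * (U ∩ M).ncard
  · by_cases hB' : 3 * (B ∩ M).ncard ≤ 2 * (U ∩ M).ncard
    · exact ⟨S, A, B, hs, hSn.trans (mul_le_mul_of_nonneg_right hKle hUpow), hA', hB'⟩
    · exact heavy B A hs.symm hB (not_le.1 hB')
  · exact heavy A B hs hA (not_le.1 hA')

end

end Pool.Agent.E8helper34.Sep
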